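import Mathlib
import Pool.Agent.K4H38.FP.Core

/-!
Finitely many polynomials which describe where the kernel of a polynomial family of linear maps is
large, and the linear system for a power of a linear form among the leading forms.
-/

set_option autoImplicit false
set_option linter.unusedSectionVars false

namespace K4H38CW

open MvPolynomial H350MG Module K4H38FP

noncomputable section

variable {K : Type} [Field K]

theorem generic_ker0 {ι V W : Type*} [AddCommGroup V] [Module K V] [FiniteDimensional K V]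
    [AddCommGroup W] [Module K W] (L : (ι → K) → V →ₗ[K] W)
    (hL : ∀ (x : V) (ψ : W →ₗ[K] K), IsPoly (fun P => ψ (L P x))) (P0 : ι → K) :
    ∃ Φ : MvPolynomial ι K, eval P0 Φ ≠ 0 ∧ ∀ P, eval P Φ ≠ 0 →
      Module.finrank K (LinearMap.ker (L P)) ≤ Module.finrank K (LinearMap.ker (L P0)) := by
  classical
  let ρ := Module.finrank K (LinearMap.range (L P0))
  let B := Module.finBasis K (LinearMap.range (L P0))
  have hb : ∀ a : Fin ρ, ∃ x : V, L P0 x = (B a : W) := fun a => (B a).2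
  choose b hb using hb
  let i : (Fin ρ →₀ K) →ₗ[K] W := (LinearMap.range (L P0)).subtype ∘ₗ B.repr.symm.toLinearMap
  have hi : LinearMap.ker i = ⊥ := by
    rw [LinearMap.ker_eq_bot]
    exact (Submodule.injective_subtype _).comp B.repr.symm.injective
  obtain ⟨g, hg⟩ := LinearMap.exists_leftInverse_of_injective i hi
  have hgB : ∀ a, g (B a : W) = Finsupp.single a 1 := by
    intro a
    have : i (Finsupp.single a 1) = (B a : W) := by
      simp [i]
    rw [← this]
    exact congrArg (fun T : (Fin ρ →₀ K) →ₗ[K] (Fin ρ →₀ K) => T (Finsupp.single a 1)) hg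
  let ψ : Fin ρ → W →ₗ[K] K := fun a => Finsupp.lapply a ∘ₗ g
  have hψ : ∀ a c, ∃ p : MvPolynomial ι K, ∀ P, eval P p = ψ a (L P (b c)) := fun a c =>
    hL (b c) (ψ a)
  choose p hp using hψ
  let Φ : MvPolynomial ι K := (Matrix.of p).det
  have hΦ : ∀ P, eval P Φ = (Matrix.of fun a c => ψ a (L P (b c))).det := by
    intro P
    rw [RingHom.map_det]
    congr 1
    ext a c
    simp [hp]
  refine ⟨Φ, ?_, ?_⟩
  · have h1 := hΦ P0
    have h2 : (Matrix.of fun a c => ψ a (L P0 (b c))) = (1 : Matrix (Fin ρ) (Fin ρ) K) := by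
      ext a c
      simp only [Matrix.of_apply, ψ, LinearMap.comp_apply, hb, hgB, Finsupp.lapply_apply,
        Matrix.one_apply, Finsupp.single_apply]
      by_cases h : a = c
      · simp [h]
      · simp [h, Ne.symm h]
    rw [h2, Matrix.det_one] at h1
    rw [h1]
    exact one_ne_zero
  · intro P hP
    rw [hΦ] at hP
    have hlin : LinearIndependent K (fun c => L P (b c)) := by
      have h1 := Matrix.linearIndependent_cols_of_det_ne_zero hP
      let G : W →ₗ[K] (Fin ρ → K) := LinearMap.pi ψ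
      refine LinearIndependent.of_comp G ?_
      exact h1
    have h2 : ρ ≤ Module.finrank K (LinearMap.range (L P)) := by
      have h3 : LinearIndependent K (fun c => (⟨L P (b c), ⟨b c, rfl⟩⟩ : LinearMap.range (L P))) := by
        refine LinearIndependent.of_comp (LinearMap.range (L P)).subtype ?_
        exact hlin
      simpa using h3.fintype_card_le_finrank
    have h4 := LinearMap.finrank_range_add_finrank_ker (L P)
    have h5 := LinearMap.finrank_range_add_finrank_ker (L P0)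
    change ρ + _ = _ at h5
    omega

/-- finitely many certificates for a small kernel -/
theorem certs {ι V W : Type} [Finite ι] [AddCommGroup V] [Module K V] [FiniteDimensional K V]
    [AddCommGroup W] [Module K W] (L : (ι → K) → V →ₗ[K] W)
    (hL : ∀ (x : V) (ψ : W →ₗ[K] K), IsPoly (fun P => ψ (L P x))) (κ : ℕ) :
    ∃ M : Finset (MvPolynomial ι K),
      (∀ Φ ∈ M, ∀ P, κ < finrank K (LinearMap.ker (L P)) → eval P Φ = 0) ∧
      ∀ P, finrank K (LinearMap.ker (L P)) ≤ κ → ∃ Φ ∈ M, eval P Φ ≠ 0 := by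
  let I : Ideal (MvPolynomial ι K) :=
    { carrier := {Φ | ∀ P, κ < finrank K (LinearMap.ker (L P)) → eval P Φ = 0}
      add_mem' := fun {a b} ha hb P hP => by rw [map_add, ha P hP, hb P hP, add_zero]
      zero_mem' := fun P _ => map_zero _
      smul_mem' := fun c {x} hx P hP => by rw [smul_eq_mul, map_mul, hx P hP, mul_zero] }
  obtain ⟨M, hM⟩ : I.FG := IsNoetherian.noetherian I
  refine ⟨M, fun Φ hΦ P hP => ?_, fun P hP => ?_⟩
  · have h1 : Φ ∈ I := by
      rw [← hM]
      exact Ideal.subset_span hΦ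
    exact h1 P hP
  · obtain ⟨Φ, h1, h2⟩ := generic_ker0 L hL P
    have h3 : Φ ∈ I := by
      intro P' hP'
      by_contra hne
      have := h2 P' hne
      omega
    by_contra hcon
    push Not at hcon
    apply h1
    rw [← hM] at h3
    have h4 : Ideal.span (M : Set (MvPolynomial ι K)) ≤ RingHom.ker (eval P) := by
      rw [Ideal.span_le]
      intro Ψ hΨ
      exact RingHom.mem_ker.2 (hcon Ψ hΨ)
    exact RingHom.mem_ker.1 (h4 h3)

variable [CharZero K] {σ : Type} [Fintype σ] [DecidableEq σ]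

/-- `P ↦ ψ (D (P_g) ^ e F)` is a polynomial function -/
lemma isPoly_Dpow' {ι : Type} (g : σ → ι) (e : ℕ) : ∀ (F : MvPolynomial σ K)
    (ψ : MvPolynomial σ K →ₗ[K] K),
    IsPoly (fun P : ι → K => ψ ((D (fun i => P (g i)) ^ e) F)) := by
  induction e with
  | zero => intro F ψ; simpa using H350MG.IsPoly.const _
  | succ e ih =>
    intro F ψ
    have h1 : (fun P : ι → K => ψ ((D (fun i => P (g i)) ^ (e + 1)) F))
        = fun P => ∑ i : σ, P (g i) * ψ ((D (fun i => P (g i)) ^ e) (pderiv i F)) := by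
      funext P
      rw [pow_succ, Module.End.mul_apply, D_apply, map_sum, map_sum]
      refine Finset.sum_congr rfl fun i _ => ?_
      rw [map_smul, map_smul, smul_eq_mul]
    rw [h1]
    exact H350MG.IsPoly.sum _ fun i _ => (H350MG.IsPoly.coord (g i)).mul (ih _ ψ)

lemma isPoly_linpow' {ι : Type} (g : σ → ι) (μ : MvPolynomial σ K →ₗ[K] K) (k : ℕ) :
    IsPoly (fun P : ι → K => μ (lin (fun i => P (g i)) ^ k)) := by
  obtain ⟨p, hp⟩ := isPoly_linpow μ k
  refine ⟨rename g p, fun P => ?_⟩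
  rw [eval_rename]
  exact hp _

/-- the point `q` -/
def pq {r : ℕ} (P : (σ ⊕ σ) ⊕ Fin r × σ → K) : σ → K := fun i => P (Sum.inl (Sum.inl i))

/-- the linear form `w` -/
def pw {r : ℕ} (P : (σ ⊕ σ) ⊕ Fin r × σ → K) : σ → K := fun i => P (Sum.inl (Sum.inr i))

/-- the further points -/
def py {r : ℕ} (P : (σ ⊕ σ) ⊕ Fin r × σ → K) (j : Fin r) : σ → K := fun i => P (Sum.inr (j, i))

/-- the linear system for a multiple of `w ^ k` among the leading forms -/
def LL (d k : ℕ) {r : ℕ} (s : Fin r → ℕ) (P : (σ ⊕ σ) ⊕ Fin r × σ → K) :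
    (Rj K σ d × K) →ₗ[K] (MvPolynomial σ K × (Fin r → MvPolynomial σ K)) :=
  LinearMap.prod
    (((D (pq P) ^ (d - k)).domRestrict (Rj K σ d)) ∘ₗ LinearMap.fst K _ _ -
      (LinearMap.toSpanSingleton K _ (lin (pw P) ^ k)) ∘ₗ LinearMap.snd K _ _)
    ((LinearMap.pi fun j => (D (py P j) ^ (d + 1 - s j)).domRestrict (Rj K σ d)) ∘ₗ
      LinearMap.fst K _ _)

lemma LL_apply (d k : ℕ) {r : ℕ} (s : Fin r → ℕ) (P : (σ ⊕ σ) ⊕ Fin r × σ → K)
    (x : Rj K σ d × K) : LL d k s P x = ((D (pq P) ^ (d - k)) x.1.1 - x.2 • lin (pw P) ^ k,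
      fun j => (D (py P j) ^ (d + 1 - s j)) x.1.1) := rfl

lemma mem_ker_LL {d k r : ℕ} {s : Fin r → ℕ} {P : (σ ⊕ σ) ⊕ Fin r × σ → K}
    {x : Rj K σ d × K} : x ∈ LinearMap.ker (LL d k s P) ↔
      (D (pq P) ^ (d - k)) x.1.1 = x.2 • lin (pw P) ^ k ∧
        ∀ j, (D (py P j) ^ (d + 1 - s j)) x.1.1 = 0 := by
  rw [LinearMap.mem_ker, LL_apply, Prod.mk_eq_zero, sub_eq_zero]
  exact and_congr_right fun _ => ⟨fun h j => congrFun h j, fun h => funext h⟩

lemma isPoly_sub {ι : Type} {f g : (ι → K) → K} (hf : IsPoly f) (hg : IsPoly g) :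
    IsPoly (fun x => f x - g x) := by
  obtain ⟨p, hp⟩ := hf
  obtain ⟨q, hq⟩ := hg
  exact ⟨p - q, fun x => by simp [hp, hq]⟩

lemma isPoly_LL (d k : ℕ) {r : ℕ} (s : Fin r → ℕ) (x : Rj K σ d × K)
    (ψ : (MvPolynomial σ K × (Fin r → MvPolynomial σ K)) →ₗ[K] K) :
    IsPoly (fun P => ψ (LL d k s P x)) := by
  have h1 : (fun P => ψ (LL d k s P x)) = fun P : (σ ⊕ σ) ⊕ Fin r × σ → K =>
      ((ψ ∘ₗ LinearMap.inl K _ _) ((D (pq P) ^ (d - k)) x.1.1) -
        x.2 * (ψ ∘ₗ LinearMap.inl K _ _) (lin (pw P) ^ k)) +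
      ∑ j : Fin r, (ψ ∘ₗ LinearMap.inr K _ _ ∘ₗ LinearMap.single K (fun _ => MvPolynomial σ K) j)
        ((D (py P j) ^ (d + 1 - s j)) x.1.1) := by
    funext P
    have e1 : LL d k s P x = LinearMap.inl K _ _ ((D (pq P) ^ (d - k)) x.1.1) -
        x.2 • LinearMap.inl K _ _ (lin (pw P) ^ k) +
        LinearMap.inr K _ _ (fun j => (D (py P j) ^ (d + 1 - s j)) x.1.1) := by
      rw [LL_apply]
      ext1
      · simp
      · simp
    rw [e1, map_add, map_sub, map_smul, smul_eq_mul]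
    congr 1
    conv_lhs => rw [← LinearMap.sum_single_apply (v := fun j =>
      (D (py P j) ^ (d + 1 - s j)) x.1.1)]
    rw [map_sum, map_sum]
    rfl
  rw [h1]
  exact isPoly_add (isPoly_sub (isPoly_Dpow' _ _ _ _)
    ((H350MG.IsPoly.const _).mul (isPoly_linpow' _ _ _)))
    (H350MG.IsPoly.sum _ fun j _ => isPoly_Dpow' _ _ _ _)

/-- the multiset of the points and multiplicities -/
def cf {r : ℕ} (q : σ → K) (k : ℕ) (y : Fin r → σ → K) (s : Fin r → ℕ) :
    Multiset ((σ → K) × ℕ) :=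
  (q, k) ::ₘ (Finset.univ : Finset (Fin r)).val.map fun j => (y j, s j)

lemma cf_snd {r : ℕ} (q : σ → K) (k : ℕ) (y : Fin r → σ → K) (s : Fin r → ℕ) :
    (cf q k y s).map Prod.snd = k ::ₘ (Finset.univ : Finset (Fin r)).val.map s := by
  unfold cf
  rw [Multiset.map_cons, Multiset.map_map]
  rfl

lemma mem_KS_cf {d k r : ℕ} {q : σ → K} {y : Fin r → σ → K} {s : Fin r → ℕ}
    {F : MvPolynomial σ K} : F ∈ KS d (cf q k y s) ↔ F ∈ Rj K σ d ∧ (D q ^ (d + 1 - k)) F = 0 ∧
      ∀ j, (D (y j) ^ (d + 1 - s j)) F = 0 := by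
  rw [mem_KS]
  constructor
  · rintro ⟨h1, h2⟩
    exact ⟨h1, h2 (q, k) (Multiset.mem_cons_self _ _), fun j => h2 (y j, s j)
      (Multiset.mem_cons_of_mem (Multiset.mem_map.2 ⟨j, Finset.mem_univ j, rfl⟩))⟩
  · rintro ⟨h1, h2, h3⟩
    refine ⟨h1, fun c hc => ?_⟩
    unfold cf at hc
    rw [Multiset.mem_cons, Multiset.mem_map] at hc
    rcases hc with rfl | ⟨j, _, rfl⟩
    · exact h2
    · exact h3 j

/-- if `w ^ k` is a leading form then the kernel is large -/
lemma ker_large {d k r : ℕ} (hk : k ≤ d) {s : Fin r → ℕ} {P : (σ ⊕ σ) ⊕ Fin r × σ → K}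
    {F : MvPolynomial σ K} (hF : F ∈ Rj K σ d) (h1 : (D (pq P) ^ (d - k)) F = lin (pw P) ^ k)
    (h2 : ∀ j, (D (py P j) ^ (d + 1 - s j)) F = 0) :
    hv K σ d ((k + 1) ::ₘ (Finset.univ : Finset (Fin r)).val.map s) <
      finrank K (LinearMap.ker (LL d k s P)) := by
  let N := KS d (cf (pq P) (k + 1) (py P) s)
  have hN : hv K σ d ((k + 1) ::ₘ (Finset.univ : Finset (Fin r)).val.map s) ≤ finrank K N :=
    hv_le _ (cf_snd _ _ _ _)
  let T : (N × K) →ₗ[K] (Rj K σ d × K) :=
    LinearMap.prod ((Submodule.inclusion (KS_le d _)) ∘ₗ LinearMap.fst K _ _ +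
      (LinearMap.toSpanSingleton K _ (⟨F, hF⟩ : Rj K σ d)) ∘ₗ LinearMap.snd K _ _)
      (LinearMap.snd K _ _)
  have hT : ∀ x : N × K, T x = (Submodule.inclusion (KS_le d _) x.1 +
      x.2 • (⟨F, hF⟩ : Rj K σ d), x.2) := fun x => rfl
  have hmem : ∀ x, T x ∈ LinearMap.ker (LL d k s P) := by
    intro x
    have hx := mem_KS_cf.1 x.1.2
    rw [mem_ker_LL, hT]
    have r1 : ((Submodule.inclusion (KS_le d _) x.1 +
        x.2 • (⟨F, hF⟩ : Rj K σ d) : Rj K σ d) : MvPolynomial σ K) =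
          (x.1 : MvPolynomial σ K) + x.2 • F := rfl
    constructor
    · change (D (pq P) ^ (d - k)) ((Submodule.inclusion (KS_le d _) x.1 +
        x.2 • (⟨F, hF⟩ : Rj K σ d) : Rj K σ d) : MvPolynomial σ K) = x.2 • lin (pw P) ^ k
      rw [r1, map_add, map_smul, h1]
      have := hx.2.1
      rw [show d + 1 - (k + 1) = d - k by omega] at this
      rw [this, zero_add]
    · intro j
      change (D (py P j) ^ (d + 1 - s j)) ((Submodule.inclusion (KS_le d _) x.1 +
        x.2 • (⟨F, hF⟩ : Rj K σ d) : Rj K σ d) : MvPolynomial σ K) = 0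
      rw [r1, map_add, map_smul, h2, hx.2.2 j, smul_zero, add_zero]
  have hinj : Function.Injective (T.codRestrict (LinearMap.ker (LL d k s P)) hmem) := by
    refine (injective_iff_map_eq_zero _).2 fun x hx => ?_
    have hx : T x = 0 := congrArg Subtype.val hx
    rw [hT, Prod.mk_eq_zero] at hx
    have h6 := hx.1
    rw [hx.2, zero_smul, add_zero] at h6
    have h8 : ((Submodule.inclusion (KS_le d _) x.1 : Rj K σ d) : MvPolynomial σ K) = 0 :=
      congrArg Subtype.val h6
    exact Prod.ext (Subtype.ext h8) hx.2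
  have h3 := LinearMap.finrank_le_finrank_of_injective hinj
  rw [Module.finrank_prod, Module.finrank_self] at h3
  omega

end

end K4H38CW
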