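import Mathlib

/-!
Points with algebraically independent coordinates over a countable field which contains given
coefficients.
-/

set_option autoImplicit false

namespace K4H38CW

open MvPolynomial Cardinal

theorem exists_indep (k₀ : Subfield ℂ) (hk : #k₀ ≤ ℵ₀) (Γ : Type) [Countable Γ] :
    ∃ P : Γ → ℂ, AlgebraicIndependent k₀ P := by
  obtain ⟨ι, v, hv⟩ := exists_isTranscendenceBasis' k₀ ℂ
  have hC : ℵ₀ < #ℂ := by
    rw [Cardinal.mk_complex]
    exact Cardinal.aleph0_lt_continuum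
  have h1 := IsAlgClosed.cardinal_eq_cardinal_transcendence_basis_of_aleph0_lt' v hv hk hC
  have h2 : #Γ ≤ #ι := by
    rw [← h1]
    exact (Cardinal.mk_le_aleph0_iff.2 inferInstance).trans hC.le
  obtain ⟨f⟩ := h2
  exact ⟨v ∘ f, hv.1.comp f f.injective⟩

/-- the coefficients lie in the field -/
def CoIn {ι : Type} (k₀ : Subfield ℂ) (Φ : MvPolynomial ι ℂ) : Prop :=
  ∃ Ψ : MvPolynomial ι k₀, MvPolynomial.map (algebraMap k₀ ℂ) Ψ = Φ

lemma CoIn.of {ι : Type} {k₀ : Subfield ℂ} {Φ : MvPolynomial ι ℂ} (h : ∀ m, coeff m Φ ∈ k₀) :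
    CoIn k₀ Φ := by
  have h1 : Φ ∈ Set.range (MvPolynomial.map (algebraMap k₀ ℂ)) := by
    rw [mem_range_map_iff_coeffs_subset]
    intro c hc
    rw [Finset.mem_coe, mem_coeffs_iff] at hc
    obtain ⟨m, _, rfl⟩ := hc
    exact ⟨⟨_, h m⟩, rfl⟩
  exact h1

theorem exists_field {ι κ : Type} (Φ : MvPolynomial ι ℂ) (M : Finset (MvPolynomial κ ℂ)) :
    ∃ k₀ : Subfield ℂ, #k₀ ≤ ℵ₀ ∧ CoIn k₀ Φ ∧ ∀ Ψ ∈ M, CoIn k₀ Ψ := by
  classical
  let S : Finset ℂ := Φ.coeffs ∪ M.biUnion fun Ψ => Ψ.coeffs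
  refine ⟨Subfield.closure (S : Set ℂ), ?_, CoIn.of fun m => ?_, fun Ψ hΨ => CoIn.of fun m => ?_⟩
  · refine (Subfield.cardinalMk_closure_le_max _).trans ?_
    exact max_le (Cardinal.mk_le_aleph0_iff.2 inferInstance) le_rfl
  · by_cases hm : coeff m Φ = 0
    · rw [hm]
      exact Subfield.zero_mem _
    · refine Subfield.subset_closure ?_
      refine Finset.mem_coe.2 (Finset.mem_union_left _ ?_)
      exact coeff_mem_coeffs _ hm
  · by_cases hm : coeff m Ψ = 0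
    · rw [hm]
      exact Subfield.zero_mem _
    · refine Subfield.subset_closure ?_
      refine Finset.mem_coe.2 (Finset.mem_union_right _ (Finset.mem_biUnion.2 ⟨Ψ, hΨ, ?_⟩))
      exact coeff_mem_coeffs _ hm

lemma eval_map_eq {ι : Type} {k₀ : Subfield ℂ} (Ψ : MvPolynomial ι k₀) (P : ι → ℂ) :
    eval P (MvPolynomial.map (algebraMap k₀ ℂ) Ψ) = aeval P Ψ := by
  rw [eval_map, aeval_def]

/-- a nonzero polynomial does not vanish at independent points -/
lemma eval_ne {ι : Type} {k₀ : Subfield ℂ} {Φ : MvPolynomial ι ℂ} (h : CoIn k₀ Φ) (h0 : Φ ≠ 0)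
    {P : ι → ℂ} (hP : AlgebraicIndependent k₀ P) : eval P Φ ≠ 0 := by
  obtain ⟨Ψ, rfl⟩ := h
  rw [eval_map_eq]
  intro h1
  apply h0
  have : Ψ = 0 := by
    apply hP
    rw [h1, map_zero]
  rw [this, map_zero]

end K4H38CW
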