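import Mathlib
import Pool.Agent.K4H38.CW.Cert

/-!
Moving a configuration such that a given power of a linear form is not a leading form.
-/

set_option autoImplicit false
set_option linter.unusedSectionVars false

namespace K4H38CW

open MvPolynomial H350MG Module K4H38FP

noncomputable section

variable {K : Type} [Field K] [CharZero K] {σ : Type} [Fintype σ] [DecidableEq σ]

lemma eval_lin (u w : σ → K) : eval u (lin w) = dt w u := by
  unfold lin dt
  rw [map_sum]
  refine Finset.sum_congr rfl fun i _ => ?_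
  rw [smul_eval, eval_X]

lemma lin_ne {w : σ → K} (hw : w ≠ 0) : (lin w : MvPolynomial σ K) ≠ 0 := by
  obtain ⟨u, hu⟩ := exists_dt_ne hw
  intro h
  apply hu
  rw [← eval_lin, h, map_zero]

lemma exists_two {w w1 : σ → K} (hw : w ≠ 0) (hw1 : w1 ≠ 0) :
    ∃ u : σ → K, dt w u ≠ 0 ∧ dt w1 u ≠ 0 := by
  have h1 : (lin w * lin w1 : MvPolynomial σ K) ≠ 0 := mul_ne_zero (lin_ne hw) (lin_ne hw1)
  obtain ⟨u, hu⟩ : ∃ u : σ → K, eval u (lin w * lin w1 : MvPolynomial σ K) ≠ 0 := by
    by_contra hcon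
    push Not at hcon
    exact h1 (MvPolynomial.funext fun u => by rw [hcon u, map_zero])
  rw [map_mul, eval_lin, eval_lin] at hu
  exact ⟨u, left_ne_zero_of_mul hu, right_ne_zero_of_mul hu⟩

lemma eval_sb (t : K) (a w x : σ → K) (F : MvPolynomial σ K) :
    eval x (sb t a w F) = eval (mv t a w x) F := by
  induction F using MvPolynomial.induction_on with
  | C c => rw [← MvPolynomial.algebraMap_eq, AlgHom.commutes, MvPolynomial.algebraMap_eq, eval_C,
      eval_C]
  | add p q hp hq => simp only [map_add, hp, hq]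
  | mul_X p i hp =>
    rw [map_mul, map_mul, hp, map_mul, eval_X]
    congr 1
    have e2 : sb t a w (X i) = C (1 - t) * X i + C (t * a i) * lin w := by simp [sb]
    rw [e2, map_add, map_mul, map_mul, eval_C, eval_C, eval_X, eval_lin]
    rfl

lemma sb_inj {t : K} {a w : σ → K} (h : (1 - t) * ((1 - t) + t * dt w a) ≠ 0)
    {F : MvPolynomial σ K} (hF : sb t a w F = 0) : F = 0 := by
  refine MvPolynomial.funext fun z => ?_
  have h1 := eval_sb t a w (wv t a w (((1 - t) * ((1 - t) + t * dt w a))⁻¹ • z)) F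
  rw [hF, map_zero, mv_wv, smul_smul, mul_inv_cancel₀ h, one_smul] at h1
  rw [← h1, map_zero]

lemma sb_lin (t : K) (a e w : σ → K) :
    sb t a e (lin w) = C (1 - t) * lin w + C (t * dt w a) * lin e := by
  have h1 : sb t a e (lin w) = ∑ i, w i • sb t a e (X i) := by
    unfold lin
    rw [map_sum]
    refine Finset.sum_congr rfl fun i _ => ?_
    rw [map_smul]
  have e2 : ∀ i, sb t a e (X i) = C (1 - t) * X i + C (t * a i) * lin e := fun i => by
    simp [sb]
  rw [h1]
  simp only [e2, smul_add, Finset.sum_add_distrib]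
  congr 1
  · unfold lin
    rw [Finset.mul_sum]
    refine Finset.sum_congr rfl fun i _ => ?_
    rw [mul_smul_comm]
  · unfold dt
    rw [Finset.mul_sum, map_sum, Finset.sum_mul]
    refine Finset.sum_congr rfl fun i _ => ?_
    rw [smul_eq_C_mul, ← mul_assoc, ← C_mul]
    congr 2
    ring

lemma lin_add (w e : σ → K) : (lin (w + e) : MvPolynomial σ K) = lin w + lin e := by
  unfold lin
  rw [← Finset.sum_add_distrib]
  refine Finset.sum_congr rfl fun i _ => ?_
  rw [Pi.add_apply, add_smul]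

lemma lin_smul (c : K) (e : σ → K) : (lin (c • e) : MvPolynomial σ K) = c • lin e := by
  unfold lin
  rw [Finset.smul_sum]
  refine Finset.sum_congr rfl fun i _ => ?_
  rw [Pi.smul_apply, smul_eq_mul, mul_smul]

/-- the parameters -/
def pr {r : ℕ} (q w : σ → K) (y : Fin r → σ → K) : (σ ⊕ σ) ⊕ Fin r × σ → K :=
  Sum.elim (Sum.elim q w) fun p : Fin r × σ => y p.1 p.2

theorem exists_good {d k r : ℕ} (hk : 1 ≤ k) {s : Fin r → ℕ} {q w w1 : σ → K}
    (hw : w ≠ 0) (hw1 : w1 ≠ 0) (hwq : dt w q = 0) (hw1q : dt w1 q = 0) (y : Fin r → σ → K)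
    (hno : ∀ F ∈ KS d (cf q k y s), (D q ^ (d - k)) F ≠ lin w1 ^ k) :
    ∃ y' : Fin r → σ → K, finrank K (LinearMap.ker (LL d k s (pr q w y'))) ≤
      finrank K (KS d (cf q (k + 1) y s)) := by
  obtain ⟨u, hu, hu1⟩ := exists_two hw hw1
  have h2 : (2 : K) ≠ 0 := two_ne_zero
  let t : K := 1 / 2
  let e : σ → K := (dt w u)⁻¹ • (w1 - w)
  have ht : 1 - t = 1 / 2 := by change 1 - 1 / 2 = (1 / 2 : K); norm_num
  have hdt : ∀ (v : σ → K), dt e v = (dt w u)⁻¹ * (dt w1 v - dt w v) := by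
    intro v
    unfold dt
    simp only [e, Pi.smul_apply, Pi.sub_apply, smul_eq_mul]
    rw [← Finset.sum_sub_distrib, Finset.mul_sum]
    refine Finset.sum_congr rfl fun i _ => ?_
    unfold dt
    ring
  have heq : dt e q = 0 := by rw [hdt, hwq, hw1q, sub_zero, mul_zero]
  have heu : dt e u = (dt w u)⁻¹ * dt w1 u - 1 := by
    rw [hdt, mul_sub, inv_mul_cancel₀ hu]
  have hc : (1 - t) * ((1 - t) + t * dt e u) ≠ 0 := by
    rw [ht, heu]
    have : (1 / 2 : K) * (1 / 2 + t * ((dt w u)⁻¹ * dt w1 u - 1)) =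
        1 / 4 * ((dt w u)⁻¹ * dt w1 u) := by
      change (1 / 2 : K) * (1 / 2 + 1 / 2 * ((dt w u)⁻¹ * dt w1 u - 1)) = _
      ring
    rw [this]
    exact mul_ne_zero (by norm_num) (mul_ne_zero (inv_ne_zero hu) hu1)
  have hlin : sb t u e (lin w) = C (1 / 2 : K) * lin w1 := by
    rw [sb_lin, ht]
    have e1 : (lin w1 : MvPolynomial σ K) = lin w + dt w u • lin e := by
      rw [← lin_smul, ← lin_add]
      congr 1
      change w1 = w + dt w u • (dt w u)⁻¹ • (w1 - w)
      rw [smul_smul, mul_inv_cancel₀ hu, one_smul]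
      abel
    rw [e1, mul_add, smul_eq_C_mul, ← mul_assoc, ← C_mul]
  refine ⟨fun j => mv t u e (y j), ?_⟩
  have key : ∀ x ∈ LinearMap.ker (LL d k s (pr q w fun j => mv t u e (y j))),
      x.2 = 0 ∧ sb t u e x.1.1 ∈ KS d (cf q (k + 1) y s) := by
    intro x hx
    rw [mem_ker_LL] at hx
    have hx1 : (D q ^ (d - k)) x.1.1 = x.2 • lin w ^ k := hx.1
    have hx2 : ∀ j, (D (mv t u e (y j)) ^ (d + 1 - s j)) x.1.1 = 0 := hx.2
    have g1 : (D q ^ (d - k)) (sb t u e x.1.1) =
        ((1 / 2 : K) ^ (d - k) * (x.2 * (1 / 2) ^ k)) • lin w1 ^ k := by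
      rw [Dpow_sb, mv_of_dt heq, Dpow_smul, hx1, map_smul, map_smul, map_pow, hlin, ht, mul_pow,
        ← C_pow, ← smul_eq_C_mul, smul_smul, smul_smul, mul_assoc]
    have g2 : ∀ j, (D (y j) ^ (d + 1 - s j)) (sb t u e x.1.1) = 0 := by
      intro j
      rw [Dpow_sb, hx2 j, map_zero]
    have hz : x.2 = 0 := by
      by_contra hne
      have hcc : (1 / 2 : K) ^ (d - k) * (x.2 * (1 / 2) ^ k) ≠ 0 :=
        mul_ne_zero (pow_ne_zero _ (by norm_num)) (mul_ne_zero hne (pow_ne_zero _ (by norm_num)))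
      refine hno (((1 / 2 : K) ^ (d - k) * (x.2 * (1 / 2) ^ k))⁻¹ • sb t u e x.1.1) ?_ ?_
      · refine Submodule.smul_mem _ _ ?_
        rw [mem_KS_cf]
        refine ⟨sb_hom x.1.2, ?_, g2⟩
        rcases Nat.lt_or_ge d k with hdk | hdk
        · have e0 : d - k = 0 := by omega
          have e1 : d + 1 - k = 0 ∨ d + 1 - k = 1 := by omega
          rw [e0, pow_zero] at g1
          have g1' : sb t u e x.1.1 = ((1 / 2 : K) ^ 0 * (x.2 * (1 / 2) ^ k)) • lin w1 ^ k := g1
          have g3 : sb t u e x.1.1 ∈ Rj K σ d := sb_hom x.1.2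
          exfalso
          rw [e0] at hcc
          have g4 : (lin w1 ^ k : MvPolynomial σ K) ∈ Rj K σ d := by
            have := Submodule.smul_mem (Rj K σ d) (((1 / 2 : K) ^ 0 * (x.2 * (1 / 2) ^ k))⁻¹) g3
            rwa [g1', smul_smul, inv_mul_cancel₀ hcc, one_smul] at this
          have g5 : (lin w1 ^ k : MvPolynomial σ K) ∈ Rj K σ k := linpow_hom w1 k
          have g6 : (lin w1 ^ k : MvPolynomial σ K) ≠ 0 := pow_ne_zero _ (lin_ne hw1)
          have h7 : (lin w1 ^ k : MvPolynomial σ K).IsHomogeneous d := g4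
          have h8 : (lin w1 ^ k : MvPolynomial σ K).IsHomogeneous k := g5
          have := h7.inj_right h8 g6
          omega
        · rw [show d + 1 - k = d - k + 1 by omega, pow_succ', Module.End.mul_apply, g1, map_smul]
          obtain ⟨k', rfl⟩ : ∃ k', k = k' + 1 := ⟨k - 1, by omega⟩
          rw [D_linpow, hw1q, mul_zero, zero_smul, smul_zero]
      · rw [map_smul, g1, smul_smul, inv_mul_cancel₀ hcc, one_smul]
    refine ⟨hz, ?_⟩
    rw [mem_KS_cf]
    refine ⟨sb_hom x.1.2, ?_, g2⟩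
    rw [show d + 1 - (k + 1) = d - k by omega, g1, hz, zero_mul, mul_zero, zero_smul]
  let T : LinearMap.ker (LL d k s (pr q w fun j => mv t u e (y j))) →ₗ[K]
      KS d (cf q (k + 1) y s) :=
    { toFun := fun x => ⟨sb t u e x.1.1.1, (key x.1 x.2).2⟩
      map_add' := fun x z => Subtype.ext (map_add (sb t u e) _ _)
      map_smul' := fun c x => Subtype.ext (map_smul (sb t u e) _ _) }
  refine LinearMap.finrank_le_finrank_of_injective (f := T) ?_
  refine (injective_iff_map_eq_zero _).2 fun x hx => ?_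
  have h1 : sb t u e x.1.1.1 = 0 := congrArg Subtype.val hx
  have h3 := sb_inj hc h1
  exact Subtype.ext (Prod.ext (Subtype.ext h3) (key x.1 x.2).1)

end

end K4H38CW
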