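import Pool.Agent.K4H38.CW.Pair

set_option autoImplicit false
set_option linter.unusedSectionVars false

/-!
# The pairing with the powers of linear forms
-/

namespace K4H38CW

open MvPolynomial Module

noncomputable section

variable {K : Type} [Field K] [CharZero K] {σ : Type} [Fintype σ] [DecidableEq σ]

lemma pderiv_lin (w : σ → K) (i : σ) :
    pderiv i (∑ j, w j • X j : MvPolynomial σ K) = C (w i) := by
  rw [map_sum, Finset.sum_eq_single i]
  · rw [Derivation.map_smul, pderiv_X_self, smul_eq_C_mul, mul_one]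
  · intro j _ hj
    rw [Derivation.map_smul, pderiv_X_of_ne hj, smul_zero]
  · intro h
    exact absurd (Finset.mem_univ i) h

lemma pderiv_lin_pow (w : σ → K) (i : σ) (k : ℕ) :
    pderiv i ((∑ j, w j • X j : MvPolynomial σ K) ^ (k + 1)) =
      ((k + 1 : ℕ) * w i : K) • (∑ j, w j • X j : MvPolynomial σ K) ^ k := by
  rw [Derivation.leibniz_pow, pderiv_lin, Nat.add_sub_cancel, smul_eq_mul, smul_eq_C_mul, map_mul,
    map_natCast, nsmul_eq_mul]
  ring

lemma Bp_lin_mon (w : σ → K) : ∀ (k : ℕ) (κ : σ →₀ ℕ), κ.degree = k →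
    Bp (monomial κ 1) ((∑ j, w j • X j : MvPolynomial σ K) ^ k) =
      (k.factorial : K) * eval w (monomial κ (1 : K)) := by
  intro k
  induction k with
  | zero =>
    intro κ hκ
    have h0 : κ = 0 := by
      rwa [Finsupp.degree_eq_zero_iff] at hκ
    subst h0
    rw [Bp_mon, pow_zero]
    simp [fc]
  | succ k ih =>
    intro κ hκ
    obtain ⟨i, hi⟩ : ∃ i, κ i ≠ 0 := by
      by_contra hcon
      push Not at hcon
      have : κ = 0 := by ext i; simpa using hcon i
      rw [this] at hκ
      simp at hκ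
    set μ : σ →₀ ℕ := κ - Finsupp.single i 1 with hμ
    have hκμ : κ = μ + Finsupp.single i 1 := by
      rw [hμ, tsub_add_cancel_of_le]
      rw [Finsupp.single_le_iff]
      omega
    have hdeg : μ.degree = k := by
      have : κ.degree = μ.degree + 1 := by
        rw [hκμ, map_add, Finsupp.degree_single]
      omega
    have h1 : (monomial κ 1 : MvPolynomial σ K) = X i * monomial μ 1 := by
      rw [hκμ, X, monomial_mul, one_mul, add_comm]
    rw [h1, Bp_X, pderiv_lin_pow, map_smul, ih μ hdeg, map_mul, eval_X, smul_eq_mul,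
      Nat.factorial_succ]
    push_cast
    ring

lemma Bp_lin (w : σ → K) (k : ℕ) {p : MvPolynomial σ K} (hp : p.IsHomogeneous k) :
    Bp p ((∑ j, w j • X j : MvPolynomial σ K) ^ k) = (k.factorial : K) * eval w p := by
  conv_lhs => rw [p.as_sum]
  conv_rhs => rw [p.as_sum]
  rw [map_sum, LinearMap.sum_apply, map_sum, Finset.mul_sum]
  refine Finset.sum_congr rfl fun κ hκ => ?_
  have h1 : κ.degree = k := by
    by_contra h
    exact (mem_support_iff.1 hκ) (hp.coeff_eq_zero h)
  have h2 : (monomial κ (coeff κ p) : MvPolynomial σ K) = (coeff κ p) • monomial κ 1 := by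
    rw [smul_monomial, smul_eq_mul, mul_one]
  rw [h2, map_smul, LinearMap.smul_apply, Bp_lin_mon w k κ h1, smul_eval, smul_eq_mul]
  ring

lemma Bp_lin_mul (v : σ → K) (p F : MvPolynomial σ K) :
    Bp ((∑ j, v j • X j) * p) F = Bp p (∑ j, v j • pderiv j F) := by
  rw [Finset.sum_mul, map_sum, LinearMap.sum_apply, map_sum]
  refine Finset.sum_congr rfl fun i _ => ?_
  rw [smul_mul_assoc, map_smul, LinearMap.smul_apply, Bp_X, map_smul]

end

end K4H38CW
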