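import Pool.Agent.H364R2.Chain
import Pool.Agent.H503R3.QCI.Hilb
import Pool.Agent.TH144.MB.Macaulay

set_option autoImplicit false
set_option linter.unusedSectionVars false

/-!
# A space of forms of degree `k` without common zeros
-/

namespace K4H38CW

open MvPolynomial Module

noncomputable section

variable {n : ℕ}

open Pool.Agent.H364R2 in
/-- a good sequence is regular -/
lemma reg_of_good {fs : List (MvPolynomial (Fin (n + 1)) ℂ)} (h : Good 1 fs)
    (hl : fs.length = n + 1) :
    H503R3.QCI.Reg (fun i : Fin (n + 1) => fs[i.1]'(by have := i.2; omega)) := by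
  intro i x hx
  have hi : i.1 < fs.length := by have := i.2; omega
  have h2 : Ideal.ofList (fs.take i.1) =
      Ideal.span ((fun i : Fin (n + 1) => fs[i.1]'(by have := i.2; omega)) '' {j | j < i}) := by
    rw [Ideal.ofList]
    congr 1
    ext y
    simp only [Set.mem_ofPred_eq, Set.mem_image, List.mem_take_iff_getElem]
    constructor
    · rintro ⟨j, hj, rfl⟩
      exact ⟨⟨j, by omega⟩, Fin.lt_def.mpr (by simp; omega), rfl⟩
    · rintro ⟨j, hj, rfl⟩
      exact ⟨j.1, by have := Fin.lt_def.mp hj; have := i.2; omega, rfl⟩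
  rw [← h2] at hx ⊢
  have hsat : ∀ (I : Ideal (MvPolynomial (Fin (n + 1)) ℂ)) g, g ∈ sat 1 I ↔ g ∈ I := by
    intro I g
    constructor
    · rintro ⟨m, hm⟩
      simpa using hm
    · intro hg
      exact le_sat 1 I hg
  have h3 := h i.1 hi x ((hsat _ _).2 hx)
  exact (hsat _ _).1 h3

open Pool.Agent.H364R2 in
/-- a space of forms of degree `k` without common zeros contains a regular sequence which starts
with a given nonzero element -/
lemma exists_regular (S : Submodule ℂ (MvPolynomial (Fin (n + 1)) ℂ))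
    (hz : ∀ w : Fin (n + 1) → ℂ, (∀ f ∈ S, eval w f = 0) → w = 0)
    {g : MvPolynomial (Fin (n + 1)) ℂ} (hg : g ∈ S) (hg0 : g ≠ 0) :
    ∃ f : Fin (n + 1) → MvPolynomial (Fin (n + 1)) ℂ, f 0 = g ∧ (∀ i, f i ∈ S) ∧
      H503R3.QCI.Reg f := by
  have hQ : ∀ Q : Ideal (MvPolynomial (Fin (n + 1)) ℂ), Q.IsPrime → (∀ f ∈ S, f ∈ Q) →
      (1 : MvPolynomial (Fin (n + 1)) ℂ) ∉ Q →
      ∃ gs : List (MvPolynomial (Fin (n + 1)) ℂ), gs.length = n + 1 ∧ (∀ g ∈ gs, g ∈ Q) ∧
        WR (MvPolynomial (Fin (n + 1)) ℂ) gs := by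
    intro Q hQp hQS hQ1
    refine ⟨List.ofFn (fun i : Fin (n + 1) => (X i : MvPolynomial (Fin (n + 1)) ℂ)), by simp, ?_,
      H503R3.QCI.isWeaklyRegular_of_reg H503R3.QCI.reg_X⟩
    intro p hp
    rw [List.mem_ofFn] at hp
    obtain ⟨i, rfl⟩ := hp
    have h2 : (X i : MvPolynomial (Fin (n + 1)) ℂ) ∈ Q.radical := by
      rw [← vanishingIdeal_zeroLocus_eq_radical (K := ℂ), mem_vanishingIdeal_iff]
      intro v hv
      have h3 : v = 0 := by
        refine hz v fun p hp => ?_
        have h4 := (mem_zeroLocus_iff.1 hv) p (hQS p hp)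
        simpa [aeval_eq_eval] using h4
      simp [h3]
    rwa [hQp.radical] at h2
  have hex : ∀ m ≤ n, ∃ fs : List (MvPolynomial (Fin (n + 1)) ℂ), fs.length = m + 1 ∧
      Good 1 fs ∧ (∀ f ∈ fs, f ∈ S) ∧ fs[0]? = some g := by
    intro m
    induction m with
    | zero =>
      intro _
      refine ⟨[g], rfl, ?_, by simpa using hg, rfl⟩
      have h1 := (Good_nil (1 : MvPolynomial (Fin (n + 1)) ℂ)).snoc (f := g) (by
        rintro a ⟨N, hN⟩
        refine ⟨0, ?_⟩
        rw [one_pow, one_mul, Ideal.ofList_nil, Ideal.mem_bot] at hN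
        rw [pow_zero, one_mul, Ideal.ofList_nil, Ideal.mem_bot]
        exact (mul_eq_zero.1 hN).resolve_left hg0)
      simpa using h1
    | succ m ih =>
      intro hm
      obtain ⟨fs, hl, hgd, hS, h0⟩ := ih (by omega)
      obtain ⟨f, hfS, hf⟩ := exists_next S (n + 1) hQ fs hgd hS (by omega)
      refine ⟨fs ++ [f], by simp [hl], hgd.snoc hf, ?_, ?_⟩
      · intro a ha
        rw [List.mem_append, List.mem_singleton] at ha
        rcases ha with ha | rfl
        · exact hS a ha
        · exact hfS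
      · rw [List.getElem?_append_left (by omega)]
        exact h0
  obtain ⟨fs, hl, hgd, hS, h0⟩ := hex n le_rfl
  refine ⟨fun i => fs[i.1]'(by have := i.2; omega), ?_, ?_, reg_of_good hgd hl⟩
  · have h1 : fs[0]? = some (fs[0]'(by omega)) := List.getElem?_eq_getElem _
    rw [h1] at h0
    exact Option.some.inj h0
  · intro i
    exact hS _ (List.getElem_mem _)

/-- homogeneous regular sequences of full length have no common zeros -/
lemma no_zero_of_reg (f : Fin n → MvPolynomial (Fin n) ℂ) (e : Fin n → ℕ)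
    (hf : ∀ i, (f i).IsHomogeneous (e i)) (he : ∀ i, 1 ≤ e i) (hreg : H503R3.QCI.Reg f)
    (w : Fin n → ℂ) (hw : ∀ i, eval w (f i) = 0) : w = 0 := by
  obtain ⟨_, h2⟩ := H503R3.QCI.isSocleDegree_ci f e hf he hreg
  funext i
  have h3 := h2 (∑ i, (e i - 1) + 1) (Nat.lt_succ_self _) (X i ^ (∑ i, (e i - 1) + 1)) (by
    have := (isHomogeneous_X ℂ i).pow (∑ i, (e i - 1) + 1)
    simpa using this)
  have h4 : Ideal.span (Set.range f) ≤ RingHom.ker (eval w) := by
    rw [Ideal.span_le]
    rintro _ ⟨j, rfl⟩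
    exact hw j
  have h5 := h4 h3
  rw [RingHom.mem_ker, map_pow, eval_X] at h5
  exact pow_eq_zero_iff (Nat.succ_ne_zero _) |>.1 h5

/-- Let `S` be a space of forms of degree `k` without common zeros which contains the power of the
linear form `L`. Then `L` and suitable `n` elements of `S` generate all forms of degree
`> n (k - 1)`. -/
lemma exists_gen {k : ℕ} (hk : 1 ≤ k) (S : Submodule ℂ (MvPolynomial (Fin (n + 1)) ℂ))
    (hSk : ∀ f ∈ S, f.IsHomogeneous k)
    (hz : ∀ w : Fin (n + 1) → ℂ, (∀ f ∈ S, eval w f = 0) → w = 0)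
    {L : MvPolynomial (Fin (n + 1)) ℂ} (hL : L.IsHomogeneous 1) (hL0 : L ≠ 0) (hLS : L ^ k ∈ S) :
    ∃ f : Fin n → MvPolynomial (Fin (n + 1)) ℂ, (∀ i, f i ∈ S) ∧
      ∀ l, n * (k - 1) < l → ∀ p : MvPolynomial (Fin (n + 1)) ℂ, p.IsHomogeneous l →
        p ∈ Ideal.span (insert L (Set.range f)) := by
  obtain ⟨f, hf0, hfS, hreg⟩ := exists_regular S hz hLS (pow_ne_zero k hL0)
  refine ⟨fun i => f i.succ, fun i => hfS _, ?_⟩
  intro l hl p hp
  have h1 := Pool.Agent.TH144.MB.macaulay_square (K := ℂ) (ι := Fin (n + 1)) (σ := Fin (n + 1))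
    (Fin.cons L fun i => f i.succ) (Fin.cons 1 fun _ => k) (by
      intro i
      refine Fin.cases ?_ (fun j => ?_) i
      · simpa using hL
      · simpa using hSk _ (hfS j.succ)) (by
      intro i
      refine Fin.cases ?_ (fun j => ?_) i
      · simp
      · simp only [Fin.cons_succ]
        omega) rfl (by
      intro w hw
      refine no_zero_of_reg f (fun _ => k) (fun i => hSk _ (hfS i)) (fun _ => hk) hreg w ?_
      intro i
      refine Fin.cases ?_ (fun j => ?_) i
      · have h2 := hw 0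
        simp only [Fin.cons_zero] at h2
        rw [hf0, map_pow, h2, zero_pow (by omega)]
      · have h2 := hw j.succ
        simpa only [Fin.cons_succ] using h2) (t := l) (by
      rw [Fin.sum_univ_succ]
      simpa using hl) hp
  have h2 : Set.range (Fin.cons L fun i => f i.succ : Fin (n + 1) → MvPolynomial (Fin (n + 1)) ℂ) =
      insert L (Set.range fun i : Fin n => f i.succ) := Fin.range_cons _ _
  rwa [h2] at h1

end

end K4H38CW
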