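import Mathlib
import Pool.Agent.K4H38.FP.Core
import Pool.Agent.K4H38.CW.PairLin
import Pool.Agent.K4H38.CW.Sel

set_option autoImplicit false
set_option linter.unusedSectionVars false

/-!
# Spaces of forms closed under differentiation vanish in large degrees

Let `G l` be spaces of forms of degree `l` annihilated by the derivative along `v`, with
`∂ G (l + 1) ⊆ G l`. If `G k` contains no `k`-th power of a nonzero linear form then `G l = 0` for
all `l > n (k - 1)`: the forms of degree `k` orthogonal to `G k` have no common zeros, so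
(Macaulay) `n` of them together with the linear form `v` generate all forms of degree `l`.
-/

namespace K4H38CW

open MvPolynomial H350MG Module K4H38FP

noncomputable section

/-- the forms of degree `k` orthogonal to a space -/
def orth {n : ℕ} (k : ℕ) (G : Submodule ℂ (MvPolynomial (Fin (n + 1)) ℂ)) :
    Submodule ℂ (MvPolynomial (Fin (n + 1)) ℂ) where
  carrier := {p | p.IsHomogeneous k ∧ ∀ F ∈ G, Bp p F = 0}
  add_mem' := by
    rintro p q ⟨hp, hp'⟩ ⟨hq, hq'⟩
    refine ⟨hp.add hq, fun F hF => ?_⟩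
    rw [map_add, LinearMap.add_apply, hp' F hF, hq' F hF, add_zero]
  zero_mem' := by
    refine ⟨isHomogeneous_zero _ _ _, fun F _ => ?_⟩
    rw [map_zero, LinearMap.zero_apply]
  smul_mem' := by
    rintro c p ⟨hp, hp'⟩
    refine ⟨?_, fun F hF => ?_⟩
    · rw [smul_eq_C_mul]
      simpa using (isHomogeneous_C (Fin (n + 1)) c).mul hp
    · rw [map_smul, LinearMap.smul_apply, hp' F hF, smul_zero]

lemma mem_orth {n k : ℕ} {G : Submodule ℂ (MvPolynomial (Fin (n + 1)) ℂ)}
    {p : MvPolynomial (Fin (n + 1)) ℂ} :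
    p ∈ orth k G ↔ p.IsHomogeneous k ∧ ∀ F ∈ G, Bp p F = 0 := Iff.rfl

lemma lin_eq {n : ℕ} (w : Fin (n + 1) → ℂ) : lin w = ∑ i, w i • X i := rfl

lemma eval_lin' {n : ℕ} (w v : Fin (n + 1) → ℂ) : eval w (lin v) = dt w v := by
  rw [lin_eq, map_sum, dt]
  refine Finset.sum_congr rfl fun i _ => ?_
  rw [smul_eval, eval_X, mul_comm]

/-- the common zeros of the orthogonal space are the powers of linear forms in the space -/
lemma pow_mem_of_orth {n k : ℕ} {G : Submodule ℂ (MvPolynomial (Fin (n + 1)) ℂ)}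
    (hG : ∀ F ∈ G, F.IsHomogeneous k) {w : Fin (n + 1) → ℂ}
    (hw : ∀ p ∈ orth k G, eval w p = 0) : lin w ^ k ∈ G := by
  by_contra hcon
  obtain ⟨φ, hφ, hφG⟩ := Submodule.exists_le_ker_of_notMem hcon
  obtain ⟨p, hp, hpφ⟩ := exists_Bp k φ
  have h1 : p ∈ orth k G := by
    refine ⟨hp, fun F hF => ?_⟩
    rw [hpφ F (hG F hF)]
    exact hφG hF
  have h2 := Bp_lin w k hp
  rw [hw p h1, mul_zero, ← lin_eq, hpφ _ (linpow_hom w k)] at h2
  exact hφ h2

theorem algA {n : ℕ} (hn : 1 ≤ n) {v : Fin (n + 1) → ℂ} (hv : v ≠ 0) {k : ℕ} (hk : 1 ≤ k)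
    (G : ℕ → Submodule ℂ (MvPolynomial (Fin (n + 1)) ℂ)) (hle : ∀ l, G l ≤ QQ l v)
    (hder : ∀ l (u : Fin (n + 1) → ℂ), ∀ F ∈ G (l + 1), D u F ∈ G l)
    (hno : ∀ w : Fin (n + 1) → ℂ, w ≠ 0 → dt w v = 0 → lin w ^ k ∉ G k) (l : ℕ)
    (hl : n * (k - 1) < l) : G l = ⊥ := by
  have hhom : ∀ l, ∀ F ∈ G l, F.IsHomogeneous l := fun l F hF => (hle l hF).1
  have hDv : ∀ l, ∀ F ∈ G l, D v F = 0 := fun l F hF => (hle l hF).2
  -- multiples of `lin v`
  have hlv : ∀ (a : MvPolynomial (Fin (n + 1)) ℂ) (l : ℕ), ∀ F ∈ G l, Bp (lin v * a) F = 0 := by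
    intro a l F hF
    rw [lin_eq, Bp_lin_mul, ← D_apply, hDv l F hF, map_zero]
  -- multiples of the elements of the orthogonal space
  have hort : ∀ f ∈ orth k (G k), ∀ (a : MvPolynomial (Fin (n + 1)) ℂ) (l : ℕ), ∀ F ∈ G l,
      Bp (f * a) F = 0 := by
    intro f hf a
    induction a using MvPolynomial.induction_on with
    | C c =>
      intro l F hF
      rw [mul_comm, ← smul_eq_C_mul, map_smul, LinearMap.smul_apply]
      rcases eq_or_ne k l with rfl | hkl
      · rw [hf.2 F hF, smul_zero]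
      · rw [Bp_deg hkl hf.1 (hhom l F hF), smul_zero]
    | add p q hp hq =>
      intro l F hF
      rw [mul_add, map_add, LinearMap.add_apply, hp l F hF, hq l F hF, add_zero]
    | mul_X p i hp =>
      intro l F hF
      have h1 : f * (p * X i) = X i * (f * p) := by ring
      rw [h1, Bp_X, ← D_single]
      rcases Nat.eq_zero_or_pos l with rfl | hl
      · rw [D_zero_hom ((hle 0 hF).1), map_zero]
      · obtain ⟨l', rfl⟩ := Nat.exists_eq_add_of_le' hl
        exact hp l' _ (hder l' _ F hF)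
  have hL0 : lin v ≠ 0 := by
    intro h0
    apply hv
    funext i
    have h1 := congrArg (pderiv i) h0
    rw [lin_eq, pderiv_lin, map_zero] at h1
    exact (C_eq_zero (σ := Fin (n + 1))).1 h1
  have hLS : lin v ^ k ∈ orth k (G k) := by
    refine ⟨linpow_hom v k, fun F hF => ?_⟩
    obtain ⟨k', rfl⟩ := Nat.exists_eq_add_of_le' hk
    rw [pow_succ']
    exact hlv _ _ F hF
  obtain ⟨f, hfS, hgen⟩ := exists_gen hk (orth k (G k)) (fun f hf => hf.1) (by
    intro w hw
    by_contra hw0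
    refine hno w hw0 ?_ (pow_mem_of_orth (hhom k) hw)
    have h1 := hw _ hLS
    rw [map_pow, eval_lin'] at h1
    exact pow_eq_zero_iff (by omega) |>.1 h1) (lin_hom v) hL0 hLS
  rw [eq_bot_iff]
  intro F hF
  rw [Submodule.mem_bot]
  refine eq_zero_of_Bp (hhom l F hF) fun p hp => ?_
  have hpI := hgen l hl p hp
  have key : ∀ a : MvPolynomial (Fin (n + 1)) ℂ, Bp (a * p) F = 0 := by
    refine Submodule.span_induction (p := fun q _ => ∀ a : MvPolynomial (Fin (n + 1)) ℂ,
      Bp (a * q) F = 0) ?_ ?_ ?_ ?_ hpI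
    · intro q hq a
      rw [mul_comm]
      rcases hq with rfl | ⟨i, rfl⟩
      · exact hlv a l F hF
      · exact hort _ (hfS i) a l F hF
    · intro a
      rw [mul_zero, map_zero, LinearMap.zero_apply]
    · intro x y _ _ hx hy a
      rw [mul_add, map_add, LinearMap.add_apply, hx, hy, add_zero]
    · intro b x _ hx a
      rw [smul_eq_mul, ← mul_assoc]
      exact hx _
  have h1 := key 1
  rwa [one_mul] at h1

end

end K4H38CW
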