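import Mathlib

/-!
A relation which holds for many subsets of a set of independent points.
-/

set_option autoImplicit false

namespace K4H38CW

open MvPolynomial

/-- A nonzero value can be kept when some of the points are replaced by natural numbers. -/
theorem dropD_nat {n : ℕ} (k₀ : Subfield ℂ) {r : ℕ} (q w : Fin (n + 1) → ℂ)
    (Ψ : MvPolynomial ((Fin (n + 1) ⊕ Fin (n + 1)) ⊕ Fin r × Fin (n + 1)) k₀)
    (h1 : ∃ y : Fin r → Fin (n + 1) → ℂ,
      aeval (Sum.elim (Sum.elim q w) fun p : Fin r × Fin (n + 1) => y p.1 p.2) Ψ ≠ 0) :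
    ∃ m : Fin r → Fin (n + 1) → ℕ,
      aeval (Sum.elim (Sum.elim q w) fun p : Fin r × Fin (n + 1) => (m p.1 p.2 : ℂ)) Ψ ≠ 0 := by
  obtain ⟨y, hy⟩ := h1
  set P : MvPolynomial (Fin r × Fin (n + 1)) ℂ :=
    aeval (Sum.elim (fun v => C (Sum.elim q w v)) fun p : Fin r × Fin (n + 1) => X p) Ψ with hP
  have key : ∀ z : Fin r × Fin (n + 1) → ℂ, eval z P = aeval (Sum.elim (Sum.elim q w) z) Ψ := by
    intro z
    have h := comp_aeval_apply (R := k₀)
      (φ := ((aeval z : MvPolynomial (Fin r × Fin (n + 1)) ℂ →ₐ[ℂ] ℂ).restrictScalars k₀))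
      (f := Sum.elim (fun v => C (Sum.elim q w v)) fun p : Fin r × Fin (n + 1) => X p) Ψ
    have h2 : eval z P = ((aeval z : MvPolynomial (Fin r × Fin (n + 1)) ℂ →ₐ[ℂ] ℂ).restrictScalars
        k₀) P := by
      simp
    rw [h2, hP, h]
    congr 2
    funext v
    rcases v with v | v <;> simp
  by_contra hcon
  push Not at hcon
  have h0 : P = 0 := by
    apply MvPolynomial.funext_set (fun _ => Set.range (fun n : ℕ => (n : ℂ)))
      (fun i => Set.infinite_range_of_injective Nat.cast_injective)
    intro z hz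
    choose m hm using fun i => (Set.mem_pi.1 hz i trivial)
    have hm' : z = fun p => (m p : ℂ) := funext fun p => (hm p).symm
    rw [key, hm', map_zero]
    exact hcon fun j i => m (j, i)
  apply hy
  rw [← key (fun p => y p.1 p.2), h0, map_zero]

/-- A relation between the numbers `v i` with coefficients in `k₀[C₀]` makes one of them algebraic
over the others. -/
theorem dropD_dep {ι : Type*} (k₀ : Subfield ℂ) (C₀ : Set ℂ) (v : ι → ℂ)
    (G : MvPolynomial ι (Algebra.adjoin k₀ C₀)) (hG : G ≠ 0) (hv : aeval v G = 0) :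
    ∃ i, IsAlgebraic (Algebra.adjoin k₀ (C₀ ∪ v '' {i}ᶜ)) (v i) := by
  by_contra hcon
  push Not at hcon
  have hind : AlgebraicIndependent (Algebra.adjoin k₀ C₀) v := by
    refine algebraicIndependent_of_finite_type' Subtype.val_injective fun t _ _ i hi => ?_
    have h1 : Transcendental (Algebra.adjoin k₀ (C₀ ∪ v '' {i}ᶜ)) (v i) := hcon i
    have h2 : Algebra.adjoin k₀ (C₀ ∪ v '' t) ≤ Algebra.adjoin k₀ (C₀ ∪ v '' {i}ᶜ) := by
      apply Algebra.adjoin_mono
      apply Set.union_subset_union_right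
      apply Set.image_mono
      intro j hj hji
      exact hi (by rw [Set.mem_singleton_iff] at hji; rwa [← hji])
    have h3 := h1.of_tower_top_of_subalgebra_le h2
    rw [Algebra.adjoin_union_eq_adjoin_adjoin] at h3
    exact h3
  exact hG (algebraicIndependent_iff.1 hind G hv)


theorem dropD_count {n : ℕ} (hn : 1 ≤ n) (k₀ : Subfield ℂ) {α : Type} [Finite α]
    (q : Fin (n + 1) → ℂ) (x : α → Fin (n + 1) → ℂ)
    (hx : AlgebraicIndependent k₀ (Sum.elim q fun p : α × Fin (n + 1) => x p.1 p.2))
    (w : Fin (n + 1) → ℂ) (hwq : ∑ i, w i * q i = 0) (hw1 : ∃ i, w i = 1)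
    (F T : Set α) (hFT : Disjoint F T)
    (hT : ∀ a ∈ T, ∃ i, IsAlgebraic (Algebra.adjoin k₀ ((Set.range q ∪ Set.range w ∪
      {c | ∃ a ∈ F, ∃ i, c = x a i}) ∪ x a '' {i}ᶜ)) (x a i)) :
    T.ncard < n := by
  classical
  -- all coordinates are different
  have hinj := hx.injective
  have hq0 : ∀ i, q i ≠ 0 := fun i => hx.ne_zero (Sum.inl i)
  have hxx : ∀ a b i j, x a i = x b j → a = b ∧ i = j := by
    intro a b i j h
    have := @hinj (Sum.inr (a, i)) (Sum.inr (b, j)) (by simpa using h)
    simpa using this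
  have hqx : ∀ a i j, q j ≠ x a i := by
    intro a i j h
    have := @hinj (Sum.inl j) (Sum.inr (a, i)) (by simpa using h)
    simp at this
  have hT' : ∀ a : α, ∃ i, a ∈ T → IsAlgebraic (Algebra.adjoin k₀ ((Set.range q ∪ Set.range w ∪
      {c | ∃ a ∈ F, ∃ i, c = x a i}) ∪ x a '' {i}ᶜ)) (x a i) := by
    intro a
    by_cases ha : a ∈ T
    · obtain ⟨i, hi⟩ := hT a ha
      exact ⟨i, fun _ => hi⟩
    · exact ⟨0, fun h => absurd h ha⟩
  choose e he using hT'
  obtain ⟨i1, hi1⟩ := hw1
  obtain ⟨i2, hi2⟩ : ∃ i2 : Fin (n + 1), i2 ≠ i1 := by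
    have : Nontrivial (Fin (n + 1)) := Fin.nontrivial_iff_two_le.2 (by omega)
    exact exists_ne i1
  set M := AlgebraicIndependent.matroid k₀ ℂ with hM
  have hmem : ∀ (s : Set ℂ) (c : ℂ), c ∈ M.closure s ↔ IsAlgebraic (Algebra.adjoin k₀ s) c := by
    intro s c
    rw [hM, AlgebraicIndependent.matroid_closure_eq, SetLike.mem_coe,
      Subalgebra.mem_algebraicClosure]
  set T1 : Set ℂ := Set.range q ∪ {c | ∃ a ∈ F, ∃ i, c = x a i} ∪
    {c | ∃ a ∈ T, ∃ i, i ≠ e a ∧ c = x a i} with hT1
  set E2 : Set ℂ := (fun a => x a (e a)) '' T with hE2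
  set W' : Set ℂ := w '' {i1, i2}ᶜ with hW'
  have hsub : ∀ s : Set ℂ, s ⊆ M.E := fun s => by simp [hM]
  -- w lies in the closure
  have hT1L : T1 ⊆ M.closure (T1 ∪ W') :=
    Set.subset_union_left.trans (M.subset_closure _ (hsub _))
  have hW'L : W' ⊆ M.closure (T1 ∪ W') :=
    Set.subset_union_right.trans (M.subset_closure _ (hsub _))
  have hw1L : w i1 ∈ M.closure (T1 ∪ W') := by
    rw [hmem, hi1]
    exact isAlgebraic_one
  have hwL' : ∀ i, i ≠ i2 → w i ∈ M.closure (T1 ∪ W') := by
    intro i hi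
    by_cases h : i = i1
    · rw [h]; exact hw1L
    · exact hW'L ⟨i, by simp [h, hi], rfl⟩
  have hqL : ∀ i, q i ∈ M.closure (T1 ∪ W') := fun i => hT1L (Or.inl (Or.inl ⟨i, rfl⟩))
  have hw2L : w i2 ∈ M.closure (T1 ∪ W') := by
    have h1 : w i2 = -(∑ i ∈ Finset.univ.erase i2, w i * q i) * (q i2)⁻¹ := by
      have h2 := Finset.add_sum_erase Finset.univ (fun i => w i * q i) (Finset.mem_univ i2)
      rw [hwq] at h2
      have h3 : w i2 * q i2 = -(∑ i ∈ Finset.univ.erase i2, w i * q i) := by linear_combination h2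
      rw [← h3]
      field_simp [hq0 i2]
    have hq := fun i => (hmem _ _).1 (hqL i)
    have hw := fun i hi => (hmem _ _).1 (hwL' i hi)
    rw [hmem, h1]
    refine IsAlgebraic.mul (IsAlgebraic.neg ?_) (hq i2).inv
    have h4 : ∀ s : Finset (Fin (n + 1)), i2 ∉ s →
        IsAlgebraic (Algebra.adjoin k₀ (T1 ∪ W')) (∑ i ∈ s, w i * q i) := by
      intro s
      induction s using Finset.induction_on with
      | empty => intro _; simpa using isAlgebraic_zero
      | insert a s ha ih =>
        intro hs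
        rw [Finset.mem_insert, not_or] at hs
        rw [Finset.sum_insert ha]
        exact ((hw a (Ne.symm hs.1)).mul (hq a)).add (ih hs.2)
    exact h4 _ (by simp)
  have hwL : Set.range w ⊆ M.closure (T1 ∪ W') := by
    rintro _ ⟨i, rfl⟩
    by_cases h : i = i2
    · rw [h]; exact hw2L
    · exact hwL' i h
  have hE2L : E2 ⊆ M.closure (T1 ∪ W') := by
    rintro _ ⟨a, ha, rfl⟩
    have h1 := (hmem _ _).2 (he a ha)
    rw [← M.closure_closure (T1 ∪ W')]
    refine M.closure_subset_closure ?_ h1
    refine Set.union_subset (Set.union_subset (Set.union_subset ?_ hwL) ?_) ?_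
    · rintro _ ⟨i, rfl⟩; exact hqL i
    · intro c hc; exact hT1L (Or.inl (Or.inr hc))
    · rintro _ ⟨i, hi, rfl⟩; exact hT1L (Or.inr ⟨a, ha, i, hi, rfl⟩)
  have hdisj : Disjoint T1 E2 := by
    rw [Set.disjoint_left]
    rintro c hc ⟨b, hb, rfl⟩
    rcases hc with (⟨i, hi⟩ | ⟨a, ha, i, hi⟩) | ⟨a, ha, i, hne, hi⟩
    · exact hqx _ _ _ hi
    · obtain ⟨h1, -⟩ := hxx _ _ _ _ hi
      rw [← h1] at ha
      exact Set.disjoint_left.1 hFT ha hb
    · obtain ⟨h1, h2⟩ := hxx _ _ _ _ hi
      rw [← h1, ← h2] at hne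
      exact hne rfl
  have hIndep : M.Indep (T1 ∪ E2) := by
    have h1 : M.Indep (Set.range (Sum.elim q fun p : α × Fin (n + 1) => x p.1 p.2)) :=
      hx.to_subtype_range
    refine h1.subset ?_
    rintro c (((⟨i, rfl⟩ | ⟨a, -, i, rfl⟩) | ⟨a, -, i, -, rfl⟩) | ⟨a, -, rfl⟩)
    · exact ⟨Sum.inl i, rfl⟩
    · exact ⟨Sum.inr (a, i), rfl⟩
    · exact ⟨Sum.inr (a, i), rfl⟩
    · exact ⟨Sum.inr (a, e a), rfl⟩
  have hT1fin : T1.Finite := by
    refine (Set.finite_range (Sum.elim q fun p : α × Fin (n + 1) => x p.1 p.2)).subset ?_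
    rintro c ((⟨i, rfl⟩ | ⟨a, -, i, rfl⟩) | ⟨a, -, i, -, rfl⟩)
    · exact ⟨Sum.inl i, rfl⟩
    · exact ⟨Sum.inr (a, i), rfl⟩
    · exact ⟨Sum.inr (a, i), rfl⟩
  have hW'fin : W'.Finite := Set.toFinite _
  have hcard : (T1 ∪ E2).encard ≤ (T1 ∪ W').encard :=
    calc (T1 ∪ E2).encard ≤ M.eRk (M.closure (T1 ∪ W')) :=
          hIndep.encard_le_eRk_of_subset (Set.union_subset hT1L hE2L)
      _ = M.eRk (T1 ∪ W') := M.eRk_closure_eq _
      _ ≤ _ := M.eRk_le_encard _
  have hE2fin : E2.Finite := (Set.toFinite T).image _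
  have hcard' : (T1 ∪ E2).ncard ≤ (T1 ∪ W').ncard := by
    rw [← (hT1fin.union hE2fin).cast_ncard_eq, ← (hT1fin.union hW'fin).cast_ncard_eq] at hcard
    exact_mod_cast hcard
  rw [Set.ncard_union_eq hdisj hT1fin hE2fin] at hcard'
  have h5 : (T1 ∪ W').ncard ≤ T1.ncard + W'.ncard := Set.ncard_union_le _ _
  have h6 : E2.ncard = T.ncard :=
    Set.ncard_image_of_injective _ fun a b h => (hxx _ _ _ _ h).1
  have h7 : W'.ncard ≤ n - 1 := by
    refine (Set.ncard_image_le (Set.toFinite _)).trans ?_
    rw [Set.ncard_compl, Set.ncard_pair (Ne.symm hi2)]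
    simp
  omega

/-- `q` and the `x a` are points with `n + 1` coordinates in `ℂ`, all coordinates together
algebraically independent over `k₀`; `w` is a vector with `⟨w, q⟩ = 0` one coordinate of which
is `1`. `Ψ` is a polynomial over `k₀` in the coordinates of `q`, `w` and of `r` further points. For the
given `q`, `w` it is not identically zero, but it vanishes for all `r` different points
`x (f 0), …, x (f (r - 1))` with `f j ∈ S j`. Then some `S j` has less than `n + j` elements. -/
theorem dropD {n : ℕ} (hn : 1 ≤ n) (k₀ : Subfield ℂ) {α : Type} [Finite α] {r : ℕ}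
    (q : Fin (n + 1) → ℂ) (x : α → Fin (n + 1) → ℂ)
    (hx : AlgebraicIndependent k₀ (Sum.elim q fun p : α × Fin (n + 1) => x p.1 p.2))
    (w : Fin (n + 1) → ℂ) (hwq : ∑ i, w i * q i = 0) (hw1 : ∃ i, w i = 1)
    (Ψ : MvPolynomial ((Fin (n + 1) ⊕ Fin (n + 1)) ⊕ Fin r × Fin (n + 1)) k₀)
    (h1 : ∃ y : Fin r → Fin (n + 1) → ℂ,
      aeval (Sum.elim (Sum.elim q w) fun p : Fin r × Fin (n + 1) => y p.1 p.2) Ψ ≠ 0)
    (S : Fin r → Set α)
    (h2 : ∀ f : Fin r → α, Function.Injective f → (∀ j, f j ∈ S j) →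
      aeval (Sum.elim (Sum.elim q w) fun p : Fin r × Fin (n + 1) => x (f p.1) p.2) Ψ = 0) :
    ∃ j : Fin r, (S j).ncard < n + j := by
  classical
  by_contra hcon
  push Not at hcon
  obtain ⟨m₀, hm₀⟩ := dropD_nat k₀ q w Ψ h1
  have claim : ∀ t : ℕ, t ≤ r → ∃ f : Fin r → α, (∀ j, j.1 < t → f j ∈ S j) ∧
      (∀ i j, i.1 < t → j.1 < t → f i = f j → i = j) ∧
      ∃ m : Fin r → Fin (n + 1) → ℕ,
        aeval (Sum.elim (Sum.elim q w) fun p : Fin r × Fin (n + 1) =>
          if p.1.1 < t then x (f p.1) p.2 else (m p.1 p.2 : ℂ)) Ψ ≠ 0 := by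
    intro t
    induction t with
    | zero =>
      intro _
      have hne : ∀ j : Fin r, ∃ a, a ∈ S j := by
        intro j
        have := hcon j
        have h : (S j).ncard ≠ 0 := by omega
        exact Set.nonempty_of_ncard_ne_zero h
      choose f hf using hne
      exact ⟨f, fun j _ => hf j, fun i j hi => absurd hi (by simp), m₀, by simpa using hm₀⟩
    | succ t ih =>
      intro ht
      obtain ⟨f, hf1, hf2, m, hm⟩ := ih (by omega)
      set jt : Fin r := ⟨t, by omega⟩ with hjt
      by_contra hno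
      set F : Set α := f '' {j | j.1 < t} with hF
      set T : Set α := S jt \ F with hT
      have hFcard : F.ncard ≤ t := by
        refine (Set.ncard_image_le (Set.toFinite _)).trans ?_
        have : ({j : Fin r | j.1 < t} : Set (Fin r)).ncard ≤ (Set.Iio t : Set ℕ).ncard := by
          refine Set.ncard_le_ncard_of_injOn (fun j => j.1) (fun j hj => hj)
            (fun i _ j _ h => Fin.ext h) (Set.finite_Iio t)
        refine this.trans ?_
        rw [← Finset.coe_Iio, Set.ncard_coe_finset]
        simp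
      have hTcard : n ≤ T.ncard := by
        have h3 := hcon jt
        have h4 := Set.ncard_le_ncard_sdiff_add_ncard (S jt) F (Set.toFinite _)
        have h5 : (jt : ℕ) = t := rfl
        rw [← hT] at h4
        rw [h5] at h3
        omega
      -- every point of `T` is a zero
      have hzero : ∀ a ∈ T, aeval (Sum.elim (Sum.elim q w) fun p : Fin r × Fin (n + 1) =>
          if p.1.1 < t then x (f p.1) p.2 else if p.1 = jt then x a p.2
            else (m p.1 p.2 : ℂ)) Ψ = 0 := by
        intro a ha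
        by_contra h3
        apply hno
        refine ⟨Function.update f jt a, ?_, ?_, m, ?_⟩
        · intro j hj
          by_cases h : j = jt
          · subst h; simpa using ha.1
          · rw [Function.update_of_ne h]
            apply hf1
            have : j.1 ≠ t := fun h' => h (Fin.ext h')
            omega
        · intro i j hi hj hij
          by_cases h : i = jt
          · by_cases h' : j = jt
            · rw [h, h']
            · exfalso
              rw [h, Function.update_self, Function.update_of_ne h'] at hij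
              have : j.1 ≠ t := fun h'' => h' (Fin.ext h'')
              exact ha.2 ⟨j, by simp only [Set.mem_ofPred_eq]; omega, hij.symm⟩
          · have hit : i.1 ≠ t := fun h'' => h (Fin.ext h'')
            by_cases h' : j = jt
            · exfalso
              rw [h', Function.update_self, Function.update_of_ne h] at hij
              exact ha.2 ⟨i, by simp only [Set.mem_ofPred_eq]; omega, hij⟩
            · have hjt' : j.1 ≠ t := fun h'' => h' (Fin.ext h'')
              rw [Function.update_of_ne h, Function.update_of_ne h'] at hij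
              exact hf2 i j (by omega) (by omega) hij
        · convert h3 using 4
          funext p
          by_cases h : p.1 = jt
          · have : p.1.1 = t := by rw [h]
            simp [h, hjt]
          · have : p.1.1 ≠ t := fun h'' => h (Fin.ext h'')
            rw [Function.update_of_ne h]
            by_cases h' : p.1.1 < t
            · simp [h', Nat.lt_succ_of_lt h']
            · have : ¬ p.1.1 < t + 1 := by omega
              simp [h', this, h]
      -- the relation
      set C₀ : Set ℂ := Set.range q ∪ Set.range w ∪ {c | ∃ a ∈ F, ∃ i, c = x a i} with hC₀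
      have memq : ∀ i, q i ∈ Algebra.adjoin k₀ C₀ := fun i =>
        Algebra.subset_adjoin (Or.inl (Or.inl ⟨i, rfl⟩))
      have memw : ∀ i, w i ∈ Algebra.adjoin k₀ C₀ := fun i =>
        Algebra.subset_adjoin (Or.inl (Or.inr ⟨i, rfl⟩))
      have memx : ∀ j : Fin r, j.1 < t → ∀ i, x (f j) i ∈ Algebra.adjoin k₀ C₀ := fun j hj i =>
        Algebra.subset_adjoin (Or.inr ⟨f j, ⟨j, hj, rfl⟩, i, rfl⟩)
      set G : MvPolynomial (Fin (n + 1)) (Algebra.adjoin k₀ C₀) :=
        aeval (Sum.elim (Sum.elim (fun i => C ⟨q i, memq i⟩) (fun i => C ⟨w i, memw i⟩))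
          fun p : Fin r × Fin (n + 1) => if h : p.1.1 < t then C ⟨x (f p.1) p.2, memx p.1 h p.2⟩
            else if p.1 = jt then X p.2 else C (m p.1 p.2 : Algebra.adjoin k₀ C₀)) Ψ with hG
      have hGz : ∀ z : Fin (n + 1) → ℂ, aeval z G = aeval (Sum.elim (Sum.elim q w)
          fun p : Fin r × Fin (n + 1) => if p.1.1 < t then x (f p.1) p.2 else
            if p.1 = jt then z p.2 else (m p.1 p.2 : ℂ)) Ψ := by
        intro z
        have h := comp_aeval_apply (R := k₀)
          (φ := ((aeval z : MvPolynomial (Fin (n + 1)) (Algebra.adjoin k₀ C₀)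
            →ₐ[Algebra.adjoin k₀ C₀] ℂ).restrictScalars k₀))
          (f := (Sum.elim (Sum.elim (fun i => C ⟨q i, memq i⟩) (fun i => C ⟨w i, memw i⟩))
            fun p : Fin r × Fin (n + 1) => if h : p.1.1 < t then C ⟨x (f p.1) p.2, memx p.1 h p.2⟩
              else if p.1 = jt then X p.2 else C (m p.1 p.2 : Algebra.adjoin k₀ C₀))) Ψ
        rw [hG]
        refine Eq.trans h ?_
        congr 2
        funext v
        rcases v with (v | v) | v
        · simp
        · simp
        · by_cases h1 : v.1.1 < t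
          · simp [h1]
          · by_cases h2 : v.1 = jt
            · simp [h2, hjt]
            · simp [h1, h2]
      have hGne : G ≠ 0 := by
        intro h0
        apply hm
        have h3 := hGz fun i => (m jt i : ℂ)
        rw [h0, map_zero] at h3
        rw [h3]
        congr 2
        funext v
        rcases v with v | v
        · rfl
        · by_cases h1 : v.1.1 < t
          · simp [h1]
          · by_cases h2 : v.1 = jt
            · simp [h2]
            · simp [h1, h2]
      have hlt := dropD_count hn k₀ q x hx w hwq hw1 F T Set.disjoint_sdiff_right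
        fun a ha => dropD_dep k₀ C₀ (x a) G hGne (by rw [hGz]; exact hzero a ha)
      omega
  obtain ⟨f, hf1, hf2, m, hm⟩ := claim r le_rfl
  apply hm
  have h3 := h2 f (fun i j h => hf2 i j i.2 j.2 h) fun j => hf1 j j.2
  rw [← h3]
  congr 2
  funext v
  rcases v with v | v
  · rfl
  · simp

end K4H38CW
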