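import Mathlib
import Pool.Agent.K4H38.CW.Move
import Pool.Agent.K4H38.CW.Indep
import Pool.Agent.K4H38.CW.TaskA
import Pool.Agent.K4H38.CW.TaskD

/-!
After `n - 1` more points no power of a linear form is a leading form.
-/

set_option autoImplicit false
set_option linter.unusedSectionVars false

namespace K4H38CW

open MvPolynomial H350MG Module K4H38FP

noncomputable section

section one

variable {K : Type} [Field K] [CharZero K] {σ : Type} [Fintype σ] [DecidableEq σ]

/-- the indices of the points -/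
def ixA {r : ℕ} (s : Fin r → ℕ) : Fin r ↪ ℕ × ℕ :=
  ⟨fun j => (s j, j.1), fun i j h => Fin.ext (congrArg Prod.snd h)⟩

/-- the index set -/
def AA {r : ℕ} (s : Fin r → ℕ) : Finset (ℕ × ℕ) := Finset.univ.map (ixA s)

lemma AA_fst {r : ℕ} (s : Fin r → ℕ) :
    (AA s).val.map Prod.fst = (Finset.univ : Finset (Fin r)).val.map s := by
  unfold AA
  rw [Finset.map_val, Multiset.map_map]
  rfl

lemma cfg_AA {r : ℕ} (P : Ix × σ → K) (k : ℕ) (s : Fin r → ℕ) :
    cfg P k (AA s) = cf (pt P none) k (fun j => pt P (some (s j, j.1))) s := by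
  unfold cfg cf AA
  rw [Finset.map_val, Multiset.map_map]
  rfl

lemma gen_all {Γ : Type} {Q : ℕ → (Γ → K) → Prop} (N : ℕ) (h : ∀ l < N, Gen K (Q l)) :
    Gen K (fun P => ∀ l < N, Q l P) := by
  induction N with
  | zero => exact Gen.of_forall fun θ l hl => absurd hl (Nat.not_lt_zero l)
  | succ N ih =>
    refine ((ih fun l hl => h l (by omega)).and (h N (by omega))).mono fun P hP l hl => ?_
    rcases Nat.lt_succ_iff_lt_or_eq.1 hl with h1 | rfl
    · exact hP.1 l h1
    · exact hP.2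

lemma dt_smul (c : K) (w v : σ → K) : dt (c • w) v = c * dt w v := by
  unfold dt
  rw [Finset.mul_sum]
  refine Finset.sum_congr rfl fun i _ => ?_
  rw [Pi.smul_apply, smul_eq_mul, mul_assoc]

/-- some power is not a leading form -/
lemma exists_w1 {d k : ℕ} (hk : 1 ≤ k) {P : Ix × σ → K} {A : Finset (ℕ × ℕ)}
    (hv : pt P none ≠ 0) (h : finrank K (GG d k P A) < ak σ k) :
    ∃ w1 : σ → K, w1 ≠ 0 ∧ dt w1 (pt P none) = 0 ∧ lin w1 ^ k ∉ GG d k P A := by
  by_contra hcon
  push Not at hcon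
  have hle : QQ k (pt P none) ≤ GG d k P A := by
    intro F hF
    by_contra hc
    obtain ⟨μ, hμ1, hμ2⟩ := Submodule.exists_le_ker_of_notMem hc
    refine hμ1 (funct_zero_QQ hv μ (fun w hw => ?_) hF)
    by_cases hw0 : w = 0
    · have : (lin w : MvPolynomial σ K) = 0 := by rw [hw0]; simp [lin]
      rw [this, zero_pow (by omega), map_zero]
    · exact hμ2 (hcon w hw0 hw)
  have h1 : finrank K (QQ k (pt P none)) ≤ finrank K (GG d k P A) := by
    haveI : FiniteDimensional K (GG d k P A) := by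
      unfold GG
      infer_instance
    exact Submodule.finrank_mono hle
  rw [finrank_QQ hv] at h1
  omega

end one

lemma countP_ge {r : ℕ} {s : Fin r → ℕ} (hs : Antitone s) (j : Fin r) :
    (j : ℕ) + 1 ≤ Multiset.countP (fun m => s j ≤ m) ((Finset.univ : Finset (Fin r)).val.map s) := by
  rw [Multiset.countP_map]
  have h1 : (Finset.Iic j).card = (j : ℕ) + 1 := Fin.card_Iic j
  rw [← h1]
  have h2 : Finset.Iic j ⊆ Finset.univ.filter fun i => s j ≤ s i := by
    intro i hi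
    rw [Finset.mem_filter]
    exact ⟨Finset.mem_univ _, hs (Finset.mem_Iic.1 hi)⟩
  exact (Finset.card_le_card h2).trans_eq rfl

/-- no powers of linear forms after `n - 1` more points -/
theorem no_power {n : ℕ} (hn : 1 ≤ n) {d k : ℕ} (hk : 1 ≤ k) (hkd : k ≤ d) {r : ℕ}
    {s : Fin r → ℕ} (hs : Antitone s) {T : Multiset ℕ} (hT : n - 1 ≤ T.card)
    (hTs : ∀ t ∈ T, ∀ j, s j ≤ t)
    (hgk : gk ℂ (Fin (n + 1)) d k ((Finset.univ : Finset (Fin r)).val.map s) <
      ak (Fin (n + 1)) k) (B : Finset (ℕ × ℕ))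
    (hB : B.val.map Prod.fst = (Finset.univ : Finset (Fin r)).val.map s + T)
    {Q : (Ix × Fin (n + 1) → ℂ) → Prop} (hQ : Gen ℂ Q) :
    ∃ P : Ix × Fin (n + 1) → ℂ, Q P ∧ pt P none ≠ 0 ∧
      ∀ w : Fin (n + 1) → ℂ, w ≠ 0 → dt w (pt P none) = 0 → lin w ^ k ∉ GG d k P B := by
  classical
  have hgen := ((hQ.and gen_ne).and (gen_GG (K := ℂ) (σ := Fin (n + 1)) hkd (AA s))).and
    (gen_dim (K := ℂ) (σ := Fin (n + 1)) d (k + 1) (AA s))
  obtain ⟨Φ, hΦ0, hΦ⟩ := hgen
  obtain ⟨M, hM1, hM2⟩ := certs (K := ℂ) (ι := (Fin (n + 1) ⊕ Fin (n + 1)) ⊕ Fin r × Fin (n + 1))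
    (LL d k s) (isPoly_LL d k s) (hv ℂ (Fin (n + 1)) d
      ((k + 1) ::ₘ (Finset.univ : Finset (Fin r)).val.map s))
  obtain ⟨k₀, hk₀, hΦk, hMk⟩ := exists_field Φ M
  obtain ⟨P, hP⟩ := exists_indep k₀ hk₀ (Ix × Fin (n + 1))
  obtain ⟨⟨⟨hP1, hP2⟩, hP3⟩, hP4⟩ := hΦ P (eval_ne hΦk hΦ0 hP)
  refine ⟨P, hP1, hP2, fun w' hw' hwq' hmem' => ?_⟩
  -- a coordinate of `w` is one
  obtain ⟨i0, hi0⟩ : ∃ i, w' i ≠ 0 := by
    by_contra hcon
    push Not at hcon
    exact hw' (funext hcon)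
  obtain ⟨w, hw, hwq, hw1, hmem⟩ : ∃ w : Fin (n + 1) → ℂ, w ≠ 0 ∧ dt w (pt P none) = 0 ∧
      (∃ i, w i = 1) ∧ (lin w ^ k : MvPolynomial (Fin (n + 1)) ℂ) ∈ GG d k P B := by
    refine ⟨(w' i0)⁻¹ • w', ?_, ?_, ⟨i0, ?_⟩, ?_⟩
    · intro h
      have := congrFun h i0
      rw [Pi.smul_apply, smul_eq_mul, inv_mul_cancel₀ hi0] at this
      exact one_ne_zero this
    · rw [dt_smul, hwq', mul_zero]
    · rw [Pi.smul_apply, smul_eq_mul, inv_mul_cancel₀ hi0]
    · rw [lin_smul, smul_pow]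
      exact Submodule.smul_mem _ _ hmem'
  clear hw' hwq' hmem' hi0
  -- some power is not a leading form for the smaller set
  obtain ⟨w1, hw10, hw1q, hw1n⟩ := exists_w1 (K := ℂ) (σ := Fin (n + 1)) (d := d) hk hP2
    (A := AA s) (by rw [hP3, AA_fst]; exact hgk)
  obtain ⟨y, hy⟩ := exists_good (d := d) (s := s) hk hw hw10 hwq hw1q
    (fun j => pt P (some (s j, j.1))) (by
      intro F hF h
      apply hw1n
      rw [← cfg_AA] at hF
      exact ⟨F, hF, h⟩)
  rw [← cfg_AA, hP4, AA_fst] at hy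
  obtain ⟨Ψ, hΨM, hΨ⟩ := hM2 _ hy
  obtain ⟨Ψ', rfl⟩ := hMk Ψ hΨM
  obtain ⟨F, hF, hF2⟩ := hmem
  have hF' := mem_KS_cfg.1 hF
  obtain ⟨j, hj⟩ := dropD hn k₀ (α := {a // a ∈ B}) (pt P none) (fun a => pt P (some a.1))
    (by
      have h1 : (Sum.elim (pt P none) fun p : {a // a ∈ B} × Fin (n + 1) =>
          pt P (some p.1.1) p.2) = P ∘ (Sum.elim (fun i => (none, i)) fun p =>
            (some p.1.1, p.2)) := by
        funext x
        rcases x with i | p
        · rfl
        · rfl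
      rw [h1]
      refine hP.comp _ ?_
      rintro (i | p) (i' | p') h
      · simpa using h
      · simp at h
      · simp at h
      · rw [Sum.elim_inr, Sum.elim_inr, Prod.mk.injEq, Option.some.injEq] at h
        exact congrArg Sum.inr (Prod.ext (Subtype.ext h.1) h.2))
    w hwq hw1 Ψ' ⟨y, by rw [← eval_map_eq]; exact hΨ⟩
    (fun j => {a | s j ≤ a.1.1}) (by
      intro f hf hfS
      rw [← eval_map_eq]
      refine hM1 _ hΨM (pr (pt P none) w fun j => pt P (some (f j).1)) ?_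
      refine ker_large hkd hF'.1 hF2 fun j => ?_
      have h1 := hF'.2.2 (f j).1 (f j).2
      exact Dpow_mono (Nat.sub_le_sub_left (hfS j) _) h1)
  have h1 : ({a | s j ≤ a.1.1} : Set {a // a ∈ B}).ncard =
      Multiset.countP (fun m => s j ≤ m) (B.val.map Prod.fst) := by
    rw [Multiset.countP_map, Set.ncard_eq_toFinset_card', Set.toFinset_setOf]
    have h2 : (Finset.univ.filter fun a : {a // a ∈ B} => s j ≤ a.1.1).card =
        (B.filter fun a => s j ≤ a.1).card := by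
      rw [← Finset.card_map (Function.Embedding.subtype _)]
      congr 1
      ext a
      simp only [Finset.mem_map, Finset.mem_filter, Finset.mem_univ, true_and,
        Function.Embedding.coe_subtype, Subtype.exists, exists_and_left, exists_prop,
        exists_eq_right_right]
      tauto
    rw [h2]
    rfl
  rw [h1, hB, Multiset.countP_add] at hj
  have h3 := countP_ge hs j
  have h4 : Multiset.countP (fun m => s j ≤ m) T = T.card := by
    rw [Multiset.countP_eq_card]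
    exact fun t ht => hTs t ht j
  omega

theorem coreB {n : ℕ} (hn : 1 ≤ n) {d k : ℕ} (hk : 1 ≤ k) (hkd : k ≤ d) {r : ℕ}
    {s : Fin r → ℕ} (hs : Antitone s) {T : Multiset ℕ} (hT : n - 1 ≤ T.card)
    (hTs : ∀ t ∈ T, ∀ j, s j ≤ t)
    (hgk : gk ℂ (Fin (n + 1)) d k ((Finset.univ : Finset (Fin r)).val.map s) <
      ak (Fin (n + 1)) k) :
    hv ℂ (Fin (n + 1)) d
      ((n * (k - 1) + 1) ::ₘ ((Finset.univ : Finset (Fin r)).val.map s + T)) = 0 := by
  classical
  rcases Nat.lt_or_ge d (n * (k - 1) + 1) with hd | hd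
  · exact hv_top hd _
  obtain ⟨B, hB⟩ := exists_fin ((Finset.univ : Finset (Fin r)).val.map s + T)
  obtain ⟨P, ⟨hP1, hP2⟩, hP3, hP4⟩ := no_power hn hk hkd hs hT hTs hgk B hB
    ((gen_all (K := ℂ) (Q := fun l (P : Ix × Fin (n + 1) → ℂ) =>
      finrank ℂ (KS d (cfg P l B)) = hv ℂ (Fin (n + 1)) d (l ::ₘ B.val.map Prod.fst)) (d + 1)
      fun l _ => gen_dim d l B).and
      (gen_GG (K := ℂ) (σ := Fin (n + 1)) hd B))
  have hA := algA hn hP3 hk (fun l => if l ≤ d then GG d l P B else ⊥)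
    (by
      intro l
      beta_reduce
      split_ifs with h
      · exact GG_le h P B
      · exact bot_le)
    (by
      intro l u F hF
      beta_reduce at hF ⊢
      split_ifs at hF with h
      · rw [if_pos (by omega)]
        exact der_mem h (hP1 (l + 1) (by omega)) u hF
      · rw [(Submodule.mem_bot ℂ).1 hF, map_zero]
        exact Submodule.zero_mem _)
    (by
      intro w hw hwq
      beta_reduce
      rw [if_pos hkd]
      exact hP4 w hw hwq)
    (n * (k - 1) + 1) (Nat.lt_succ_self _)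
  rw [if_pos hd] at hA
  rw [← hB]
  obtain ⟨j, hj⟩ := Nat.exists_eq_add_of_le hd
  refine hv_of_gk (K := ℂ) (σ := Fin (n + 1)) j _ hj.symm ?_
  rw [← hP2, hA, finrank_bot]

end

end K4H38CW
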