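import Mathlib
import Pool.Agent.K4H38.CW.CoreB
import Pool.Agent.K4H77.CW.TaskC
import Pool.Agent.K4H38.FP.Fin

/-!
All but the `n ^ n + n - 2` largest multiplicities impose independent conditions.
-/

set_option autoImplicit false
set_option linter.unusedSectionVars false

namespace K4H38CW

open MvPolynomial H350MG Module K4H38FP
open K4H77CW (collideC)

noncomputable section

lemma hv_mono {K : Type} [Field K] [CharZero K] {σ : Type} [Fintype σ] [DecidableEq σ] {d : ℕ}
    {s t : Multiset ℕ} (h : s ≤ t) : hv K σ d t ≤ hv K σ d s := by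
  obtain ⟨u, rfl⟩ := Multiset.le_iff_exists_add.1 h
  obtain ⟨c, hc, hc2⟩ := hv_spec (K := K) (σ := σ) d s
  rw [← hc2]
  refine (hv_le (c + u.map fun m => ((0 : σ → K), m)) ?_).trans (Submodule.finrank_mono
    (KS_mono fun x hx => Multiset.mem_add.2 (Or.inl hx)))
  rw [Multiset.map_add, hc, Multiset.map_map]
  congr 1
  exact Multiset.map_id' u

/-- the number of the points which are left out -/
def cc (n : ℕ) : ℕ := n ^ n + n - 2

lemma hv_zero_of_gk {n : ℕ} (hn : 1 ≤ n) {d m : ℕ} {L l : List ℕ}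
    (hp : (L ++ m :: l).Pairwise (· ≥ ·)) (hL : cc n ≤ L.length) {k : ℕ} (hkm : k < m)
    (hmd : m ≤ d) (hgk : gk ℂ (Fin (n + 1)) d k (l : Multiset ℕ) < ak (Fin (n + 1)) k) :
    hv ℂ (Fin (n + 1)) d ((L ++ m :: l : List ℕ) : Multiset ℕ) = 0 := by
  rcases Nat.eq_zero_or_pos k with hk | hk
  · subst hk
    have h1 : ak (Fin (n + 1)) 0 = 1 := by
      rw [ak_fin hn, Nat.add_zero, Nat.choose_self]
    rw [h1] at hgk
    have h2 := hv_of_gk (K := ℂ) (σ := Fin (n + 1)) (s := (l : Multiset ℕ)) d 0 (Nat.zero_add d)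
      (by omega)
    rw [hv_zero] at h2
    have h3 : (l : Multiset ℕ) ≤ ((L ++ m :: l : List ℕ) : Multiset ℕ) := by
      rw [Multiset.coe_le]
      exact ((List.sublist_cons_self m l).trans (List.sublist_append_right L _)).subperm
    have := hv_mono (K := ℂ) (σ := Fin (n + 1)) (d := d) h3
    omega
  obtain ⟨E, rfl⟩ : ∃ E, n = E + 1 := ⟨n - 1, by omega⟩
  have hpow : 1 ≤ (E + 1) ^ (E + 1) := Nat.one_le_pow _ _ (by omega)
  have hL' : (L ++ [m]).length = L.length + 1 := by simp
  unfold cc at hL
  have hp' : ((L ++ [m]) ++ l).Pairwise (· ≥ ·) := by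
    rw [List.append_assoc]
    exact hp
  have hp2 := List.pairwise_append.1 hp'
  -- all elements of `L ++ [m]` are at least `m`
  have hge : ∀ a ∈ L ++ [m], m ≤ a := by
    intro a ha
    rw [List.mem_append, List.mem_singleton] at ha
    rcases ha with ha | rfl
    · exact (List.pairwise_append.1 hp2.1).2.2 a ha m (List.mem_singleton_self m)
    · exact le_rfl
  have hsl : ∀ b ∈ l, b ≤ m := by
    intro b hb
    exact hp2.2.2 m (by simp) b hb
  have hs : Antitone l.get := by
    intro i j hij
    rcases hij.eq_or_lt with rfl | h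
    · exact le_rfl
    · exact List.pairwise_iff_get.1 hp2.2.1 i j h
  have hval : (Finset.univ : Finset (Fin l.length)).val.map l.get = (l : Multiset ℕ) := by
    rw [Fin.univ_val_map, List.ofFn_get]
  let T : Multiset ℕ := ((L ++ [m]).take E : List ℕ)
  let C : Multiset ℕ := (((L ++ [m]).drop E).take ((E + 1) ^ (E + 1)) : List ℕ)
  have hB := coreB (n := E + 1) (d := d) (k := k) hn hk (by omega) hs (T := T) (by
      change E + 1 - 1 ≤ ((L ++ [m]).take E).length
      rw [List.length_take, hL']
      omega) (by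
      intro t ht j
      have h1 : t ∈ L ++ [m] := List.mem_of_mem_take (Multiset.mem_coe.1 ht)
      exact (hsl _ (List.get_mem l j)).trans (hge t h1)) (by rw [hval]; exact hgk)
  rw [hval] at hB
  have hC := collideC (E := E) (d := d) (k := k) C ((l : Multiset ℕ) + T) (by
      change (((L ++ [m]).drop E).take ((E + 1) ^ (E + 1))).length = _
      rw [List.length_take, List.length_drop, hL']
      omega) (by
      intro a ha
      have h1 : a ∈ L ++ [m] := List.mem_of_mem_drop (List.mem_of_mem_take (Multiset.mem_coe.1 ha))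
      exact Nat.succ_le_of_lt (hkm.trans_le (hge a h1))) hB
  have hle : C + ((l : Multiset ℕ) + T) ≤ ((L ++ m :: l : List ℕ) : Multiset ℕ) := by
    have e1 : C + ((l : Multiset ℕ) + T) = (((L ++ [m]).take E ++
        ((L ++ [m]).drop E).take ((E + 1) ^ (E + 1)) ++ l : List ℕ) : Multiset ℕ) := by
      rw [← Multiset.coe_add, ← Multiset.coe_add]
      change C + ((l : Multiset ℕ) + T) = T + C + l
      abel
    rw [e1, Multiset.coe_le]
    have e2 : (L ++ m :: l : List ℕ) = ((L ++ [m]).take E ++ (L ++ [m]).drop E) ++ l := by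
      rw [List.take_append_drop, List.append_assoc]
      rfl
    rw [e2]
    exact (((List.Sublist.refl _).append (List.take_sublist _ _)).append
      (List.Sublist.refl _)).subperm
  have := hv_mono (K := ℂ) (σ := Fin (E + 1 + 1)) (d := d) hle
  omega

theorem tail_indep {n : ℕ} (hn : 1 ≤ n) (d : ℕ) : ∀ (l L : List ℕ),
    (L ++ l).Pairwise (· ≥ ·) → cc n ≤ L.length →
      hv ℂ (Fin (n + 1)) d ((L ++ l : List ℕ) : Multiset ℕ) ≠ 0 →
        hv ℂ (Fin (n + 1)) d (l : Multiset ℕ) + (l.map (nc n)).sum = (n + d).choose n := by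
  have S := sys hn d
  intro l
  induction l with
  | nil =>
    intro L _ _ _
    change hv ℂ (Fin (n + 1)) d 0 + 0 = _
    rw [add_zero]
    exact S.h7
  | cons m l ih =>
    intro L hp hL h0
    have ih1 := ih (L ++ [m]) (by rw [List.append_assoc]; exact hp) (by simp; omega)
      (by rw [List.append_assoc]; exact h0)
    have hmd : m ≤ d := by
      by_contra hcon
      apply h0
      have h1 : ((m :: l : List ℕ) : Multiset ℕ) ≤ ((L ++ m :: l : List ℕ) : Multiset ℕ) := by
        rw [Multiset.coe_le]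
        exact (List.sublist_append_right L _).subperm
      have h2 := hv_mono (K := ℂ) (σ := Fin (n + 1)) (d := d) h1
      have h3 : hv ℂ (Fin (n + 1)) d ((m :: l : List ℕ) : Multiset ℕ) = 0 :=
        hv_top (by omega) (l : Multiset ℕ)
      omega
    have h1 := S.h_sum (l : Multiset ℕ) m (by omega)
    have h2 : ∑ k ∈ Finset.range m, gk ℂ (Fin (n + 1)) d k (l : Multiset ℕ) = nc n m := by
      rw [S.N_sum]
      refine Finset.sum_congr rfl fun k hk => ?_
      rw [Finset.mem_range] at hk
      refine le_antisymm (S.h2 k (by omega) _) ?_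
      by_contra hcon
      exact h0 (hv_zero_of_gk hn hp hL hk hmd (by omega))
    rw [h2] at h1
    rw [List.map_cons, List.sum_cons, ← ih1, h1]
    change hv ℂ (Fin (n + 1)) d (m ::ₘ (l : Multiset ℕ)) + _ = _
    ring

/-- the superabundance -/
theorem super {n : ℕ} (hn : 1 ≤ n) (d : ℕ) : ∀ (L l : List ℕ),
    hv ℂ (Fin (n + 1)) d ((L ++ l : List ℕ) : Multiset ℕ) ≠ 0 →
      hv ℂ (Fin (n + 1)) d ((L ++ l : List ℕ) : Multiset ℕ) + L.sum ≤
        hv ℂ (Fin (n + 1)) d (l : Multiset ℕ) := by
  have S := sys hn d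
  intro L
  induction L with
  | nil => intro l _; simp
  | cons m L ih =>
    intro l h0
    have hmd : m ≤ d := by
      by_contra hcon
      exact h0 (hv_top (by omega) ((L ++ l : List ℕ) : Multiset ℕ))
    have h1 := S.rank_ge (s := ((L ++ l : List ℕ) : Multiset ℕ)) (m := m) (by omega)
      (Nat.pos_of_ne_zero h0)
    rw [List.sum_cons]
    change hv ℂ (Fin (n + 1)) d (m ::ₘ ((L ++ l : List ℕ) : Multiset ℕ)) ≠ 0 at h0
    change hv ℂ (Fin (n + 1)) d (m ::ₘ ((L ++ l : List ℕ) : Multiset ℕ)) + _ ≤ _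
    have h2 := ih l (by omega)
    omega

end

end K4H38CW
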