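import Mathlib
import Pool.Agent.K4H38.CW.Tail

/-!
Mixed and equal multiplicities.
-/

set_option autoImplicit false
set_option linter.unusedSectionVars false

namespace K4H38CW

open MvPolynomial H350MG Module K4H38FP

noncomputable section

lemma hv_le_add {n : ℕ} (hn : 1 ≤ n) {d m : ℕ} (hm : m ≤ d + 1) (s : Multiset ℕ) :
    hv ℂ (Fin (n + 1)) d s ≤ hv ℂ (Fin (n + 1)) d (m ::ₘ s) + nc n m := by
  have S := sys hn d
  rw [S.h_sum s m hm, S.N_sum]
  refine Nat.add_le_add_left (Finset.sum_le_sum fun k hk => ?_) _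
  rw [Finset.mem_range] at hk
  exact S.h2 k (by omega) s

lemma hv_le_rep {n : ℕ} (hn : 1 ≤ n) {d m : ℕ} (hm : m ≤ d + 1) (l : List ℕ) : ∀ j : ℕ,
    hv ℂ (Fin (n + 1)) d (l : Multiset ℕ) ≤
      hv ℂ (Fin (n + 1)) d ((List.replicate j m ++ l : List ℕ) : Multiset ℕ) + j * nc n m := by
  intro j
  induction j with
  | zero => simp
  | succ j ih =>
    refine ih.trans ?_
    have h1 := hv_le_add hn hm (d := d) ((List.replicate j m ++ l : List ℕ) : Multiset ℕ)
    rw [List.replicate_succ, List.cons_append, Nat.succ_mul]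
    change _ ≤ hv ℂ (Fin (n + 1)) d (m ::ₘ ((List.replicate j m ++ l : List ℕ) : Multiset ℕ)) + _
    omega

lemma dep_bound {n : ℕ} (hn : 1 ≤ n) {d m : ℕ} {l : List ℕ}
    (hp : (m :: l).Pairwise (· ≥ ·)) (hmd : m ≤ d) {k : ℕ} (hkm : k < m)
    (hgk : gk ℂ (Fin (n + 1)) d k (l : Multiset ℕ) < ak (Fin (n + 1)) k) :
    hv ℂ (Fin (n + 1)) d (m ::ₘ (l : Multiset ℕ)) ≤ cc n * nc n m := by
  have h1 := hv_zero_of_gk hn (L := List.replicate (cc n) m) (m := m) (l := l) (d := d) (by
    rw [List.pairwise_append]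
    refine ⟨List.pairwise_replicate.2 (Or.inr le_rfl), hp, ?_⟩
    intro a ha b hb
    rw [List.eq_of_mem_replicate ha]
    rcases List.mem_cons.1 hb with rfl | hb
    · exact le_rfl
    · exact (List.pairwise_cons.1 hp).1 b hb) (by simp) hkm hmd hgk
  have h2 := hv_le_rep hn (d := d) (m := m) (by omega) (m :: l) (cc n)
  rw [h1, zero_add] at h2
  exact h2

/-- the expected dimension or a bound for it -/
theorem mixed {n : ℕ} (hn : 1 ≤ n) (d M : ℕ) : ∀ l : List ℕ, l.Pairwise (· ≥ ·) →
    (∀ m ∈ l, m ≤ M) →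
      hv ℂ (Fin (n + 1)) d (l : Multiset ℕ) + (l.map (nc n)).sum = (n + d).choose n ∨
        hv ℂ (Fin (n + 1)) d (l : Multiset ℕ) ≤ cc n * nc n M := by
  have S := sys hn d
  intro l
  induction l with
  | nil =>
    intro _ _
    left
    change hv ℂ (Fin (n + 1)) d 0 + 0 = _
    rw [add_zero]
    exact S.h7
  | cons m l ih =>
    intro hp hM
    change hv ℂ (Fin (n + 1)) d (m ::ₘ (l : Multiset ℕ)) + _ = _ ∨
      hv ℂ (Fin (n + 1)) d (m ::ₘ (l : Multiset ℕ)) ≤ _
    have hmono : hv ℂ (Fin (n + 1)) d (m ::ₘ (l : Multiset ℕ)) ≤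
        hv ℂ (Fin (n + 1)) d (l : Multiset ℕ) := hv_mono (Multiset.le_cons_self _ _)
    rcases Nat.lt_or_ge d m with hmd | hmd
    · right
      rw [hv_top hmd]
      exact Nat.zero_le _
    rcases ih (List.pairwise_cons.1 hp).2 (fun a ha => hM a (List.mem_cons_of_mem _ ha)) with h | h
    · by_cases hfull : ∀ k < m, gk ℂ (Fin (n + 1)) d k (l : Multiset ℕ) = ak (Fin (n + 1)) k
      · left
        have h1 := S.h_sum (l : Multiset ℕ) m (by omega)
        have h2 : ∑ k ∈ Finset.range m, gk ℂ (Fin (n + 1)) d k (l : Multiset ℕ) = nc n m := by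
          rw [S.N_sum]
          exact Finset.sum_congr rfl fun k hk => hfull k (Finset.mem_range.1 hk)
        rw [h2] at h1
        rw [List.map_cons, List.sum_cons, ← h, h1]
        ring
      · push Not at hfull
        obtain ⟨k, hk, hne⟩ := hfull
        right
        have h3 := S.h2 k (by omega) (l : Multiset ℕ)
        refine (dep_bound hn hp hmd hk (by omega)).trans (Nat.mul_le_mul_left _ ?_)
        exact S.N_mono (hM m List.mem_cons_self)
    · right
      exact hmono.trans h

/-- the dimension is at least the expected one -/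
theorem vdim {n : ℕ} (hn : 1 ≤ n) (d : ℕ) : ∀ l : List ℕ,
    (n + d).choose n ≤ hv ℂ (Fin (n + 1)) d (l : Multiset ℕ) + (l.map (nc n)).sum := by
  intro l
  induction l with
  | nil =>
    change _ ≤ hv ℂ (Fin (n + 1)) d 0 + 0
    rw [(sys hn d).h7]
    exact le_rfl
  | cons m l ih =>
    change _ ≤ hv ℂ (Fin (n + 1)) d (m ::ₘ (l : Multiset ℕ)) + _
    rw [List.map_cons, List.sum_cons]
    rcases Nat.lt_or_ge (d + 1) m with h | h
    · have h1 : (n + d).choose n ≤ nc n m := Nat.choose_le_choose n (by omega)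
      omega
    · have h1 := hv_le_add hn h (l : Multiset ℕ)
      omega

/-- dropping the largest multiplicities -/
theorem tail_super {n : ℕ} (hn : 1 ≤ n) (d : ℕ) {L l : List ℕ} (hp : (L ++ l).Pairwise (· ≥ ·))
    (hL : cc n ≤ L.length ∨ l = [])
    (h0 : hv ℂ (Fin (n + 1)) d ((L ++ l : List ℕ) : Multiset ℕ) ≠ 0) :
    hv ℂ (Fin (n + 1)) d (l : Multiset ℕ) + (l.map (nc n)).sum = (n + d).choose n ∧
      hv ℂ (Fin (n + 1)) d ((L ++ l : List ℕ) : Multiset ℕ) + L.sum + (l.map (nc n)).sum ≤
        (n + d).choose n := by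
  have S := sys hn d
  have h1 : hv ℂ (Fin (n + 1)) d (l : Multiset ℕ) + (l.map (nc n)).sum = (n + d).choose n := by
    rcases hL with hL | rfl
    · exact tail_indep hn d l L hp hL h0
    · change hv ℂ (Fin (n + 1)) d 0 + 0 = _
      rw [add_zero]
      exact S.h7
  have h2 := super hn d L l h0
  exact ⟨h1, by omega⟩

/-- equal multiplicities: the window -/
theorem window {n : ℕ} (hn : 1 ≤ n) {d k : ℕ} (hk : k ≤ d) :
    ∃ r₀ : ℕ, (∀ r ≤ r₀, hv ℂ (Fin (n + 1)) d (Multiset.replicate r (k + 1)) +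
        r * nc n (k + 1) = (n + d).choose n) ∧
      (∀ r, r₀ + min (ak (Fin (n + 1)) k) (cc n + 1) ≤ r →
        hv ℂ (Fin (n + 1)) d (Multiset.replicate r (k + 1)) = 0) ∧
      (∀ r, r₀ < r → 2 * (hv ℂ (Fin (n + 1)) d (Multiset.replicate r (k + 1)) : ℤ) ≤
        2 * (ak (Fin (n + 1)) k - 1) * nc n k +
          (ak (Fin (n + 1)) k - 1) * (ak (Fin (n + 1)) k - 2)) ∧
      (∀ r, r₀ < r → hv ℂ (Fin (n + 1)) d (Multiset.replicate r (k + 1)) ≤
        cc n * nc n (k + 1)) := by
  classical
  have S := sys hn d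
  obtain ⟨r₀, h1, h2, h3⟩ := S.homog hk
  have hN : 1 ≤ nc n (k + 1) := by
    have := S.le_N (k + 1)
    omega
  -- downward closed
  have hdown : ∀ r, hv ℂ (Fin (n + 1)) d (Multiset.replicate (r + 1) (k + 1)) +
      (r + 1) * nc n (k + 1) = (n + d).choose n →
        hv ℂ (Fin (n + 1)) d (Multiset.replicate r (k + 1)) + r * nc n (k + 1) =
          (n + d).choose n := by
    intro r hr
    refine le_antisymm ?_ ?_
    · have e1 := hv_le_add hn (d := d) (m := k + 1) (by omega) (Multiset.replicate r (k + 1))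
      rw [← Multiset.replicate_succ] at e1
      rw [← hr, Nat.succ_mul]
      omega
    · have e2 : ∀ r : ℕ, (n + d).choose n ≤
          hv ℂ (Fin (n + 1)) d (Multiset.replicate r (k + 1)) + r * nc n (k + 1) := by
        intro r
        induction r with
        | zero => rw [Multiset.replicate_zero, S.h7]; omega
        | succ r ih =>
          refine ih.trans ?_
          have e1 := hv_le_add hn (d := d) (m := k + 1) (by omega) (Multiset.replicate r (k + 1))
          rw [← Multiset.replicate_succ] at e1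
          rw [Nat.succ_mul]
          omega
      exact e2 r
  have hex : ∃ r, ¬ hv ℂ (Fin (n + 1)) d (Multiset.replicate r (k + 1)) +
      r * nc n (k + 1) = (n + d).choose n := by
    refine ⟨(n + d).choose n + 1, fun h => ?_⟩
    have : (n + d).choose n + 1 ≤ ((n + d).choose n + 1) * nc n (k + 1) :=
      Nat.le_mul_of_pos_right _ hN
    omega
  obtain ⟨r₂, hr₂, hmin⟩ : ∃ r₂, (¬ hv ℂ (Fin (n + 1)) d (Multiset.replicate r₂ (k + 1)) +
      r₂ * nc n (k + 1) = (n + d).choose n) ∧ ∀ r < r₂, hv ℂ (Fin (n + 1)) d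
        (Multiset.replicate r (k + 1)) + r * nc n (k + 1) = (n + d).choose n :=
    ⟨Nat.find hex, Nat.find_spec hex, fun r hr => not_not.1 (Nat.find_min hex hr)⟩
  have hpos : 0 < r₂ := by
    rcases Nat.eq_zero_or_pos r₂ with h | h
    · exfalso
      apply hr₂
      rw [h]
      exact h1 0 (Nat.zero_le _)
    · exact h
  have hdep : ∀ r, r₂ ≤ r → ¬ hv ℂ (Fin (n + 1)) d (Multiset.replicate r (k + 1)) +
      r * nc n (k + 1) = (n + d).choose n := by
    intro r hr
    obtain ⟨j, rfl⟩ := Nat.exists_eq_add_of_le hr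
    clear hr
    induction j with
    | zero => exact hr₂
    | succ j ih => exact fun h => ih (hdown _ h)
  have hr0 : r₀ < r₂ := by
    by_contra hcon
    exact hr₂ (h1 r₂ (by omega))
  refine ⟨r₂ - 1, fun r hr => hmin r (by omega), fun r hr => ?_, fun r hr => h3 r (by omega),
    fun r hr => ?_⟩
  · rcases min_choice (ak (Fin (n + 1)) k) (cc n + 1) with hmi | hmi
    · rw [hmi] at hr
      exact h2 r (by omega)
    · rw [hmi] at hr
      by_contra h0
      obtain ⟨j, hj⟩ : ∃ j, r = cc n + j := ⟨r - cc n, by omega⟩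
      subst hj
      have h4 := tail_indep hn d (List.replicate j (k + 1)) (List.replicate (cc n) (k + 1)) (by
        rw [← List.replicate_add]
        exact List.pairwise_replicate.2 (Or.inr le_rfl)) (by simp) (by
        rw [← List.replicate_add]
        exact h0)
      rw [List.map_replicate, List.sum_replicate, smul_eq_mul] at h4
      exact hdep j (by omega) h4
  · rcases mixed hn d (k + 1) (List.replicate r (k + 1))
      (List.pairwise_replicate.2 (Or.inr le_rfl))
      (fun m hm => (List.eq_of_mem_replicate hm).le) with h | h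
    · exfalso
      rw [List.map_replicate, List.sum_replicate, smul_eq_mul] at h
      exact hdep r (by omega) h
    · exact h

end

end K4H38CW
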