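import Mathlib

set_option autoImplicit false
set_option linter.unusedSectionVars false

/-!
# The differentiation pairing on polynomials
-/

namespace K4H38CW

open MvPolynomial Module

noncomputable section

variable {K : Type} [Field K] [CharZero K] {σ : Type} [Fintype σ] [DecidableEq σ]

/-- `κ !` -/
def fc (κ : σ →₀ ℕ) : K := ((∏ i, (κ i).factorial : ℕ) : K)

lemma fc_ne (κ : σ →₀ ℕ) : (fc κ : K) ≠ 0 := by
  unfold fc
  rw [Nat.cast_ne_zero, Finset.prod_ne_zero_iff]
  intro i _
  exact Nat.factorial_ne_zero _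

lemma fc_add (κ : σ →₀ ℕ) (i : σ) :
    (fc (κ + Finsupp.single i 1) : K) = ((κ i : K) + 1) * fc κ := by
  unfold fc
  rw [← Finset.mul_prod_erase _ _ (Finset.mem_univ i),
    ← Finset.mul_prod_erase Finset.univ (fun j => (κ j).factorial) (Finset.mem_univ i)]
  have h1 : ∏ j ∈ Finset.univ.erase i, ((κ + Finsupp.single i 1 : σ →₀ ℕ) j).factorial =
      ∏ j ∈ Finset.univ.erase i, (κ j).factorial := by
    refine Finset.prod_congr rfl fun j hj => ?_
    have : j ≠ i := Finset.ne_of_mem_erase hj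
    simp [this.symm]
  rw [h1]
  simp only [Finsupp.coe_add, Pi.add_apply, Finsupp.single_eq_same, Nat.factorial_succ]
  push_cast
  ring

/-- the pairing `(p, F) ↦ p(∂) F (0)` -/
def Bp : MvPolynomial σ K →ₗ[K] MvPolynomial σ K →ₗ[K] K :=
  (basisMonomials σ K).constr K fun κ => (fc κ : K) • lcoeff K κ

lemma Bp_mon (κ : σ →₀ ℕ) (F : MvPolynomial σ K) :
    Bp (monomial κ 1) F = fc κ * coeff κ F := by
  have h1 : (monomial κ 1 : MvPolynomial σ K) = basisMonomials σ K κ := by
    rw [coe_basisMonomials]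
  rw [h1, Bp, Basis.constr_basis]
  rfl

lemma Bp_mon' (κ : σ →₀ ℕ) (c : K) (F : MvPolynomial σ K) :
    Bp (monomial κ c) F = c * (fc κ * coeff κ F) := by
  have h1 : (monomial κ c : MvPolynomial σ K) = c • monomial κ 1 := by
    rw [smul_monomial, smul_eq_mul, mul_one]
  rw [h1, map_smul, LinearMap.smul_apply, Bp_mon, smul_eq_mul]

lemma Bp_X (i : σ) (p F : MvPolynomial σ K) : Bp (X i * p) F = Bp p (pderiv i F) := by
  induction p using MvPolynomial.induction_on' with
  | monomial κ c =>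
    have h1 : (X i * monomial κ c : MvPolynomial σ K) = monomial (κ + Finsupp.single i 1) c := by
      rw [X, monomial_mul, one_mul, add_comm]
    rw [h1, Bp_mon', Bp_mon', fc_add, coeff_pderiv]
    ring
  | add p q hp hq =>
    rw [mul_add, map_add, map_add, LinearMap.add_apply, LinearMap.add_apply, hp, hq]

lemma Bp_deg {k l : ℕ} (hkl : k ≠ l) {p F : MvPolynomial σ K} (hp : p.IsHomogeneous k)
    (hF : F.IsHomogeneous l) : Bp p F = 0 := by
  rw [p.as_sum, map_sum, LinearMap.sum_apply]
  refine Finset.sum_eq_zero fun κ hκ => ?_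
  rw [Bp_mon']
  have h1 : κ.degree = k := by
    by_contra h
    exact (mem_support_iff.1 hκ) (hp.coeff_eq_zero h)
  rw [hF.coeff_eq_zero (by rw [h1]; exact hkl), mul_zero, mul_zero]

lemma eq_zero_of_Bp {l : ℕ} {F : MvPolynomial σ K} (hF : F.IsHomogeneous l)
    (h : ∀ p : MvPolynomial σ K, p.IsHomogeneous l → Bp p F = 0) : F = 0 := by
  ext κ
  rw [coeff_zero]
  by_cases hκ : κ.degree = l
  · have h1 := h (monomial κ 1) (isHomogeneous_monomial _ hκ)
    rw [Bp_mon] at h1
    exact (mul_eq_zero.1 h1).resolve_left (fc_ne κ)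
  · exact hF.coeff_eq_zero hκ

/-- every functional is given by the pairing on the forms of degree `k` -/
lemma exists_Bp (k : ℕ) (φ : MvPolynomial σ K →ₗ[K] K) : ∃ p : MvPolynomial σ K,
    p.IsHomogeneous k ∧ ∀ F : MvPolynomial σ K, F.IsHomogeneous k → Bp p F = φ F := by
  classical
  let T : Finset (σ →₀ ℕ) := (Finset.univ : Finset σ).finsuppAntidiag k
  have hT : ∀ κ : σ →₀ ℕ, κ ∈ T ↔ κ.degree = k := by
    intro κ
    simp only [T, Finset.mem_finsuppAntidiag, Finset.subset_univ, and_true]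
    rw [Finsupp.degree_eq_sum]
  refine ⟨∑ κ ∈ T, monomial κ (φ (monomial κ 1) * (fc κ)⁻¹), ?_, ?_⟩
  · refine IsHomogeneous.sum _ _ _ fun κ hκ => ?_
    exact isHomogeneous_monomial _ ((hT κ).1 hκ)
  · intro F hF
    rw [map_sum, LinearMap.sum_apply]
    have h1 : F = ∑ κ ∈ T, coeff κ F • monomial κ (1 : K) := by
      ext μ
      rw [coeff_sum]
      simp only [coeff_smul, coeff_monomial, smul_eq_mul, mul_ite, mul_one, mul_zero]
      rw [Finset.sum_ite_eq' T μ]
      split_ifs with h
      · rfl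
      · exact hF.coeff_eq_zero fun h2 => h ((hT μ).2 h2)
    conv_rhs => rw [h1]
    rw [map_sum]
    refine Finset.sum_congr rfl fun κ _ => ?_
    rw [Bp_mon', map_smul, smul_eq_mul]
    have := fc_ne (K := K) κ
    field_simp

end

end K4H38CW
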