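import Mathlib
import Pool.Agent.K4H38.FP.Fin

/-!
Two points in the degree `2 m - 2`.
-/

set_option autoImplicit false
set_option linter.unusedSectionVars false

namespace K4H38CW

open MvPolynomial H350MG Module K4H38FP

/-- a form of degree `a` which is not killed by the `a`-th power of the derivative along `v` -/
lemma exists_not_killed {n : ℕ} {v : Fin (n + 1) → ℂ} (hv : v ≠ 0) (a : ℕ) :
    ∃ F ∈ Rj ℂ (Fin (n + 1)) a, (D v ^ a) F ≠ 0 := by
  obtain ⟨w, hw⟩ : ∃ w : Fin (n + 1) → ℂ, dt w v ≠ 0 := by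
    obtain ⟨u, hu⟩ := exists_dt_ne hv
    refine ⟨u, ?_⟩
    have : dt u v = dt v u := by
      unfold dt
      exact Finset.sum_congr rfl fun i _ => mul_comm _ _
    rwa [this]
  refine ⟨lin w ^ a, linpow_hom w a, ?_⟩
  have key : ∀ k : ℕ, ∃ c : ℂ, c ≠ 0 ∧ (D v ^ k) (lin w ^ k) = C c := by
    intro k
    induction k with
    | zero => exact ⟨1, one_ne_zero, by simp⟩
    | succ k ih =>
      obtain ⟨c, hc, h⟩ := ih
      refine ⟨((k : ℂ) + 1) * dt w v * c, ?_, ?_⟩
      · exact mul_ne_zero (mul_ne_zero (Nat.cast_add_one_ne_zero k) hw) hc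
      · rw [pow_succ, Module.End.mul_apply, D_linpow, map_smul, h, smul_eq_C_mul, ← C_mul]
  obtain ⟨c, hc, h⟩ := key a
  rw [h]
  exact fun h0 => hc (C_eq_zero.1 h0)

/-- two points of multiplicity `m` do not impose independent conditions in the degree `2 m - 2` -/
theorem two_points {n m : ℕ} (hn : 1 ≤ n) (hm : 2 ≤ m) :
    (n + (2 * m - 2)).choose n + 1 ≤
      hv ℂ (Fin (n + 1)) (2 * m - 2) (Multiset.replicate 2 m) + 2 * nc n m := by
  obtain ⟨a, rfl⟩ : ∃ a, m = a + 1 := ⟨m - 1, by omega⟩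
  have ha : 1 ≤ a := by omega
  have hd : 2 * (a + 1) - 2 = 2 * a := by omega
  rw [hd]
  obtain ⟨c, hc, hc2⟩ := hv_spec (K := ℂ) (σ := Fin (n + 1)) (2 * a) (Multiset.replicate 2 (a + 1))
  rw [← hc2]
  have hcard : c.card = 2 := by
    have := congrArg Multiset.card hc
    simpa using this
  obtain ⟨x, y, rfl⟩ := Multiset.card_eq_two.1 hcard
  have hx : x.2 = a + 1 := by
    have : x.2 ∈ Multiset.replicate 2 (a + 1) := by
      rw [← hc]; exact Multiset.mem_map_of_mem _ (by simp)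
    exact Multiset.eq_of_mem_replicate this
  have hy : y.2 = a + 1 := by
    have : y.2 ∈ Multiset.replicate 2 (a + 1) := by
      rw [← hc]; exact Multiset.mem_map_of_mem _ (by simp)
    exact Multiset.eq_of_mem_replicate this
  -- the dimensions
  have hRd : finrank ℂ (Rj ℂ (Fin (n + 1)) (2 * a)) = (n + 2 * a).choose n := by
    rw [finrank_Rj, Fintype.card_fin, show n + 1 + 2 * a - 1 = n + 2 * a by omega]
    exact (Nat.choose_symm_add).symm
  have hRa : finrank ℂ (Rj ℂ (Fin (n + 1)) a) = nc n (a + 1) := by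
    unfold nc
    rw [finrank_Rj, Fintype.card_fin, show n + 1 + a - 1 = n + a by omega,
      show n + (a + 1) - 1 = n + a by omega]
    exact (Nat.choose_symm_add).symm
  have hnc : 1 ≤ nc n (a + 1) := by
    unfold nc
    exact Nat.choose_pos (by omega)
  have hKS : ∀ F : MvPolynomial (Fin (n + 1)) ℂ, F ∈ KS (2 * a) ({x, y} : Multiset _) ↔
      F ∈ Rj ℂ (Fin (n + 1)) (2 * a) ∧ (D x.1 ^ a) F = 0 ∧ (D y.1 ^ a) F = 0 := by
    intro F
    rw [mem_KS]
    have e : 2 * a + 1 - (a + 1) = a := by omega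
    simp [hx, hy, e]
  by_cases h0 : x.1 = 0 ∧ y.1 = 0
  · have hz : D (0 : Fin (n + 1) → ℂ) = 0 := by
      refine LinearMap.ext fun F => ?_
      rw [D_apply]
      simp
    have hKSeq : KS (2 * a) ({x, y} : Multiset _) = Rj ℂ (Fin (n + 1)) (2 * a) := by
      refine le_antisymm (KS_le _ _) fun F hF => ?_
      rw [hKS]
      rw [h0.1, h0.2, hz, zero_pow (by omega)]
      exact ⟨hF, rfl, rfl⟩
    rw [hKSeq, hRd]
    omega
  · -- the maps
    have hmem : ∀ (v : Fin (n + 1) → ℂ) (F : Rj ℂ (Fin (n + 1)) (2 * a)),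
        (D v ^ a) (F : MvPolynomial (Fin (n + 1)) ℂ) ∈ Rj ℂ (Fin (n + 1)) a := by
      intro v F
      have := Dpow_hom (v := v) a F.2
      rwa [show 2 * a - a = a by omega] at this
    let Tv : (Fin (n + 1) → ℂ) → (Rj ℂ (Fin (n + 1)) (2 * a) →ₗ[ℂ] Rj ℂ (Fin (n + 1)) a) :=
      fun v => LinearMap.codRestrict (Rj ℂ (Fin (n + 1)) a)
        ((D v ^ a) ∘ₗ (Rj ℂ (Fin (n + 1)) (2 * a)).subtype) (fun F => hmem v F)
    let T := (Tv x.1).prod (Tv y.1)
    let S : (Rj ℂ (Fin (n + 1)) a × Rj ℂ (Fin (n + 1)) a) →ₗ[ℂ] MvPolynomial (Fin (n + 1)) ℂ :=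
      ((D y.1 ^ a) ∘ₗ (Rj ℂ (Fin (n + 1)) a).subtype).coprod
        (-((D x.1 ^ a) ∘ₗ (Rj ℂ (Fin (n + 1)) a).subtype))
    have hS : S ≠ 0 := by
      intro hS
      apply h0
      constructor
      · by_contra hx0
        obtain ⟨F, hF, hne⟩ := exists_not_killed hx0 a
        have := LinearMap.congr_fun hS ((0 : Rj ℂ (Fin (n + 1)) a), (⟨F, hF⟩ : Rj ℂ (Fin (n + 1)) a))
        simp only [S, LinearMap.coprod_apply, map_zero, zero_add, LinearMap.neg_apply,
          LinearMap.comp_apply, Submodule.subtype_apply, LinearMap.zero_apply, neg_eq_zero] at this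
        exact hne this
      · by_contra hy0
        obtain ⟨F, hF, hne⟩ := exists_not_killed hy0 a
        have := LinearMap.congr_fun hS ((⟨F, hF⟩ : Rj ℂ (Fin (n + 1)) a), (0 : Rj ℂ (Fin (n + 1)) a))
        simp only [S, LinearMap.coprod_apply, map_zero, add_zero,
          LinearMap.comp_apply, Submodule.subtype_apply, LinearMap.zero_apply] at this
        exact hne this
    have hTS : LinearMap.range T ≤ LinearMap.ker S := by
      rintro _ ⟨F, rfl⟩
      change (D y.1 ^ a) ((D x.1 ^ a) (F : MvPolynomial (Fin (n + 1)) ℂ)) +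
        -((D x.1 ^ a) ((D y.1 ^ a) (F : MvPolynomial (Fin (n + 1)) ℂ))) = 0
      rw [Dpow_comm_apply, add_neg_cancel]
    have hker : finrank ℂ (LinearMap.ker S) < 2 * nc n (a + 1) := by
      have h1 : LinearMap.ker S ≠ ⊤ := fun h => hS (LinearMap.ker_eq_top.1 h)
      have h2 := Submodule.finrank_lt h1
      rw [Module.finrank_prod, hRa] at h2
      omega
    have hrange : finrank ℂ (LinearMap.range T) ≤ finrank ℂ (LinearMap.ker S) :=
      Submodule.finrank_mono hTS
    have hrn := LinearMap.finrank_range_add_finrank_ker T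
    rw [hRd] at hrn
    have hkerT : finrank ℂ (LinearMap.ker T) ≤ finrank ℂ (KS (2 * a) ({x, y} : Multiset _)) := by
      have hmapT : (LinearMap.ker T).map (Rj ℂ (Fin (n + 1)) (2 * a)).subtype ≤
          KS (2 * a) ({x, y} : Multiset _) := by
        rintro _ ⟨F, hF, rfl⟩
        rw [hKS]
        have hF' : T F = 0 := hF
        have h1 : Tv x.1 F = 0 := congrArg Prod.fst hF'
        have h2 : Tv y.1 F = 0 := congrArg Prod.snd hF'
        refine ⟨F.2, ?_, ?_⟩
        · exact congrArg Subtype.val h1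
        · exact congrArg Subtype.val h2
      calc finrank ℂ (LinearMap.ker T)
          = finrank ℂ ((LinearMap.ker T).map (Rj ℂ (Fin (n + 1)) (2 * a)).subtype) :=
            (LinearEquiv.finrank_eq (Submodule.equivMapOfInjective _
              (Submodule.injective_subtype _) _))
        _ ≤ _ := Submodule.finrank_mono hmapT
    omega

/-- there are forms of degree `2 m - 2` with `2 ^ n - 1` points of multiplicity `m` -/
theorem count_forms (n : ℕ) (hn : 1 ≤ n) :
    ∃ m : ℕ, 2 ≤ m ∧ (2 ^ n - 1) * nc n m < (n + (2 * m - 2)).choose n := by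
  refine ⟨n * (2 * n - 1) * 2 ^ n + 2, by omega, ?_⟩
  obtain ⟨N, hN⟩ : ∃ N, N = n * (2 * n - 1) * 2 ^ n := ⟨_, rfl⟩
  rw [← hN]
  have e1 : n + (2 * (N + 2) - 2) = (2 * N + 2) + n := by omega
  have e2 : n + (N + 2) - 1 = (N + 1) + n := by omega
  unfold nc
  rw [e1, e2]
  have h1 := Nat.ascFactorial_eq_factorial_mul_choose (2 * N + 2) n
  have h2 := Nat.ascFactorial_eq_factorial_mul_choose (N + 1) n
  have h3 := Nat.pow_succ_le_ascFactorial (2 * N + 2 + 1) n
  have h4 := Nat.ascFactorial_le_pow_add (N + 1) n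
  have hf : 0 < n.factorial := Nat.factorial_pos n
  refine lt_of_mul_lt_mul_left (a := n.factorial) ?_ (Nat.zero_le _)
  rw [← h1]
  refine lt_of_lt_of_le ?_ h3
  have h5 : n.factorial * ((2 ^ n - 1) * ((N + 1) + n).choose n) ≤ (2 ^ n - 1) * (N + 1 + n) ^ n := by
    calc n.factorial * ((2 ^ n - 1) * ((N + 1) + n).choose n)
        = (2 ^ n - 1) * (n.factorial * ((N + 1) + n).choose n) := by ring
      _ = (2 ^ n - 1) * (N + 1 + 1).ascFactorial n := by rw [h2]
      _ ≤ _ := Nat.mul_le_mul_left _ h4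
  refine lt_of_le_of_lt h5 ?_
  -- real numbers
  have hR : (((2 ^ n - 1 : ℕ) : ℝ)) * ((N : ℝ) + 1 + n) ^ n < (2 * (N : ℝ) + 2 + 1) ^ n := by
    have hM : (0 : ℝ) < (N : ℝ) + 1 + n := by positivity
    obtain ⟨M, hMd⟩ : ∃ M : ℝ, M = (N : ℝ) + 1 + n := ⟨_, rfl⟩
    obtain ⟨t, ht⟩ : ∃ t : ℝ, t = (2 * (n : ℝ) - 1) / (2 * M) := ⟨_, rfl⟩
    have hM0 : 0 < M := by rw [hMd]; exact hM
    have hn1 : (1 : ℝ) ≤ n := by exact_mod_cast hn
    have hNR : (N : ℝ) = n * (2 * n - 1) * 2 ^ n := by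
      rw [hN]
      have : ((2 * n - 1 : ℕ) : ℝ) = 2 * (n : ℝ) - 1 := by
        rw [Nat.cast_sub (by omega)]; push_cast; ring
      push_cast [this]
      ring
    have h2n : (1 : ℝ) ≤ 2 ^ n := one_le_pow₀ (by norm_num)
    have hnt : (n : ℝ) * t * 2 ^ n < 1 := by
      rw [ht]
      have : (n : ℝ) * ((2 * (n : ℝ) - 1) / (2 * M)) * 2 ^ n = N / (2 * M) := by
        rw [hNR]; field_simp
      rw [this, div_lt_one (by positivity), hMd]
      have : (0 : ℝ) ≤ N := Nat.cast_nonneg _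
      linarith
    have ht0 : 0 ≤ t := by
      rw [ht]
      have : 0 ≤ 2 * (n : ℝ) - 1 := by linarith
      positivity
    have ht1 : t ≤ 1 := by
      have : t ≤ n * t * 2 ^ n := by
        calc t = 1 * t * 1 := by ring
          _ ≤ n * t * 2 ^ n := by gcongr
      linarith
    have hb : 1 + (n : ℝ) * (-t) ≤ (1 + -t) ^ n := one_add_mul_le_pow (by linarith) n
    have hcast : ((2 ^ n - 1 : ℕ) : ℝ) = 2 ^ n - 1 := by
      rw [Nat.cast_sub Nat.one_le_two_pow]; push_cast; ring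
    have e3 : 2 * (N : ℝ) + 2 + 1 = 2 * M * (1 + -t) := by
      have h9 : 2 * M * t = 2 * n - 1 := by rw [ht]; field_simp
      have h10 : 2 * M * (1 + -t) = 2 * M - 2 * M * t := by ring
      rw [h10, h9, hMd]
      ring
    have e4 : 2 * M * (1 + -t) ≤ 2 * (N : ℝ) + 2 + 1 := e3.ge
    have h6 : (2 * M * (1 + -t)) ^ n ≤ (2 * (N : ℝ) + 2 + 1) ^ n :=
      pow_le_pow_left₀ (by
        have : 0 ≤ 1 + -t := by linarith
        positivity) e4 n
    refine lt_of_lt_of_le ?_ h6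
    rw [hcast, mul_pow, mul_pow, ← hMd]
    have h7 : (2 : ℝ) ^ n - 1 < 2 ^ n * (1 + -t) ^ n := by
      have h8 : 2 ^ n * (1 + (n : ℝ) * (-t)) ≤ 2 ^ n * (1 + -t) ^ n :=
        mul_le_mul_of_nonneg_left hb (by positivity)
      nlinarith
    calc ((2 : ℝ) ^ n - 1) * M ^ n < (2 ^ n * (1 + -t) ^ n) * M ^ n :=
          mul_lt_mul_of_pos_right h7 (by positivity)
      _ = 2 ^ n * M ^ n * (1 + -t) ^ n := by ring
  have : (((2 ^ n - 1) * (N + 1 + n) ^ n : ℕ) : ℝ) < (((2 * N + 2 + 1) ^ n : ℕ) : ℝ) := by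
    push_cast
    push_cast at hR
    exact hR
  exact_mod_cast this

end K4H38CW
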