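import Mathlib
import Pool.Agent.K4H38.CW.Mixed
import Pool.Agent.K4H38.CW.TaskS

/-!
The constant is at least `2 ^ n - 2`; two exceptional degrees are impossible for many points.
-/

set_option autoImplicit false
set_option linter.unusedSectionVars false

namespace K4H38CW

open MvPolynomial H350MG Module K4H38FP

noncomputable section

theorem sharp {n : ℕ} (hn : 1 ≤ n) : ∃ m d : ℕ, 1 ≤ m ∧ ∀ r, 2 ≤ r → r < 2 ^ n →
    hv ℂ (Fin (n + 1)) d (Multiset.replicate r m) ≠ 0 ∧
      (n + d).choose n < hv ℂ (Fin (n + 1)) d (Multiset.replicate r m) + r * nc n m := by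
  obtain ⟨m, hm, hc⟩ := count_forms n hn
  refine ⟨m, 2 * m - 2, by omega, fun r hr2 hr => ?_⟩
  have h2 := two_points hn hm
  have h3 := vdim hn (2 * m - 2) (List.replicate r m)
  rw [List.map_replicate, List.sum_replicate, smul_eq_mul, Multiset.coe_replicate] at h3
  obtain ⟨j, rfl⟩ := Nat.exists_eq_add_of_le' hr2
  have h4 := hv_le_rep hn (d := 2 * m - 2) (m := m) (by omega) (List.replicate 2 m) j
  rw [← List.replicate_add, Multiset.coe_replicate, Multiset.coe_replicate] at h4
  constructor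
  · intro h0
    rw [h0, zero_add] at h3
    have h5 : (j + 2) * nc n m ≤ (2 ^ n - 1) * nc n m := Nat.mul_le_mul_right _ (by omega)
    omega
  · have h6 : (j + 2) * nc n m = j * nc n m + 2 * nc n m := Nat.add_mul _ _ _
    omega

/-- the numbers of the conditions and of the forms -/
theorem two_degrees {n c m r d d' : ℕ} (hn : 2 ≤ n) (hm : 1 ≤ m) (hd : d < d')
    (h1 : r * nc n m ≤ (n + d).choose n + c * nc n m)
    (h2 : (n + d').choose n ≤ r * nc n m + c * nc n m) :
    n * (n * (r - c)) ^ (n - 1) ≤ (2 * c) ^ n * (m + n - 1) ^ n := by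
  obtain ⟨q, rfl⟩ : ∃ q, n = q + 1 := ⟨n - 1, by omega⟩
  obtain ⟨k, rfl⟩ : ∃ k, m = k + 1 := ⟨m - 1, by omega⟩
  have hN : nc (q + 1) (k + 1) = (k + (q + 1)).choose (q + 1) := by
    unfold nc
    congr 1
    omega
  set N := nc (q + 1) (k + 1) with hNdef
  have hNpos : 0 < N := by
    rw [hN]
    exact Nat.choose_pos (by omega)
  set B := (d + 1 + q).choose q with hBdef
  -- two consecutive values
  have hB1 : (q + 1 + (d + 1)).choose (q + 1) = (q + 1 + d).choose (q + 1) + B := by
    rw [show q + 1 + (d + 1) = (q + 1 + d) + 1 by omega, Nat.choose_succ_succ', hBdef,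
      show d + 1 + q = q + 1 + d by omega]
    omega
  have hmono : (q + 1 + (d + 1)).choose (q + 1) ≤ (q + 1 + d').choose (q + 1) :=
    Nat.choose_le_choose _ (by omega)
  have hB2 : B ≤ 2 * c * N := by
    have : B + (q + 1 + d).choose (q + 1) ≤ r * N + c * N := by omega
    have h3 : r * N ≤ (q + 1 + d).choose (q + 1) + c * N := h1
    nlinarith
  -- `n D = (d + 1) B`
  have hB3 : (q + 1) * (q + 1 + d).choose (q + 1) = (d + 1) * B := by
    have := Nat.choose_succ_right_eq (q + 1 + d) q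
    rw [show q + 1 + d - q = d + 1 by omega, show q + 1 + d = d + 1 + q by omega] at this
    rw [show q + 1 + d = d + 1 + q by omega, hBdef]
    linarith
  have hr : (q + 1) * (r - c) ≤ 2 * c * (d + 1) := by
    have h4 : (r - c) * N ≤ (q + 1 + d).choose (q + 1) := by
      rw [Nat.sub_mul]
      omega
    have h5 : ((q + 1) * (r - c)) * N ≤ (2 * c * (d + 1)) * N := by
      calc ((q + 1) * (r - c)) * N = (q + 1) * ((r - c) * N) := by ring
        _ ≤ (q + 1) * (q + 1 + d).choose (q + 1) := Nat.mul_le_mul_left _ h4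
        _ = (d + 1) * B := hB3
        _ ≤ (d + 1) * (2 * c * N) := Nat.mul_le_mul_left _ hB2
        _ = (2 * c * (d + 1)) * N := by ring
    exact Nat.le_of_mul_le_mul_right h5 hNpos
  have hfac1 : (d + 1) ^ q ≤ q.factorial * B := by
    have e1 := Nat.ascFactorial_eq_factorial_mul_choose (d + 1) q
    rw [hBdef, ← e1]
    exact (Nat.pow_le_pow_left (by omega) q).trans (Nat.pow_succ_le_ascFactorial (d + 2) q)
  have hfac2 : (q + 1).factorial * N ≤ (k + (q + 1)) ^ (q + 1) := by
    rw [hN, ← Nat.ascFactorial_eq_factorial_mul_choose k (q + 1)]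
    exact Nat.ascFactorial_le_pow_add k (q + 1)
  rw [Nat.add_sub_cancel, show k + 1 + (q + 1) - 1 = k + (q + 1) by omega]
  calc (q + 1) * ((q + 1) * (r - c)) ^ q ≤ (q + 1) * (2 * c * (d + 1)) ^ q :=
        Nat.mul_le_mul_left _ (Nat.pow_le_pow_left hr q)
    _ = (2 * c) ^ q * ((q + 1) * (d + 1) ^ q) := by rw [mul_pow]; ring
    _ ≤ (2 * c) ^ q * ((q + 1) * (q.factorial * B)) :=
        Nat.mul_le_mul_left _ (Nat.mul_le_mul_left _ hfac1)
    _ ≤ (2 * c) ^ q * ((q + 1) * (q.factorial * (2 * c * N))) :=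
        Nat.mul_le_mul_left _ (Nat.mul_le_mul_left _ (Nat.mul_le_mul_left _ hB2))
    _ = (2 * c) ^ (q + 1) * ((q + 1).factorial * N) := by
        rw [Nat.factorial_succ, pow_succ]; ring
    _ ≤ (2 * c) ^ (q + 1) * (k + (q + 1)) ^ (q + 1) := Nat.mul_le_mul_left _ hfac2

end

end K4H38CW
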